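import Pool.Agent.P.MP_926cae_lc.Count

/-! Expansions of rationals of bounded height in a large rational base are eventually periodic. -/

namespace Pool.Agent.P.MP_926cae_lc

open Finset

lemma den_dvd_iff (y : ℚ) (k : ℤ) : (y.den : ℤ) ∣ k ↔ ∃ z : ℤ, (k : ℚ) * y = z := by
  constructor
  · rintro ⟨m, rfl⟩
    refine ⟨m * y.num, ?_⟩
    push_cast
    rw [← Rat.mul_den_eq_num]
    ring
  · rintro ⟨z, hz⟩
    have h1 : k * y.num = y.den * z := by
      have : (k : ℚ) * y.num = y.den * z := by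
        rw [← Rat.mul_den_eq_num, ← hz]
        ring
      exact_mod_cast this
    have h2 : IsCoprime (y.den : ℤ) y.num := by
      rw [Int.isCoprime_iff_gcd_eq_one, Int.gcd_comm]
      exact y.reduced
    exact h2.dvd_of_dvd_mul_right ⟨z, h1⟩

section den

variable {p q : ℕ} {y : ℕ → ℚ} {a : ℕ → ℤ}

lemma den_succ_dvd (hy : ∀ n, (p : ℚ) * y (n + 1) = q * y n - a n) (n : ℕ) :
    (y (n + 1)).den ∣ p * (y n).den := by
  rw [← Int.natCast_dvd_natCast, den_dvd_iff]
  refine ⟨q * (y n).num - (y n).den * a n, ?_⟩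
  push_cast
  rw [← Rat.mul_den_eq_num]
  linear_combination ((y n).den : ℚ) * hy n

lemma den_dvd_pow (hy : ∀ n, (p : ℚ) * y (n + 1) = q * y n - a n) (h0 : (y 0).den = 1) (n : ℕ) :
    (y n).den ∣ p ^ n := by
  induction n with
  | zero => simp [h0]
  | succ n ih => exact (den_succ_dvd hy n).trans (by rw [pow_succ']; exact Nat.mul_dvd_mul_left p ih)

lemma den_dvd_succ (hc : p.Coprime q) (hy : ∀ n, (p : ℚ) * y (n + 1) = q * y n - a n)
    (h0 : (y 0).den = 1) (n : ℕ) : (y n).den ∣ (y (n + 1)).den := by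
  have h1 : (y n).den.Coprime q := (hc.pow_left n).coprime_dvd_left (den_dvd_pow hy h0 n)
  refine h1.dvd_of_dvd_mul_left ?_
  rw [← Int.natCast_dvd_natCast, den_dvd_iff]
  refine ⟨p * (y (n + 1)).num + (y (n + 1)).den * a n, ?_⟩
  push_cast
  rw [← Rat.mul_den_eq_num]
  linear_combination -((y (n + 1)).den : ℚ) * hy n

lemma den_dvd_of_le (hc : p.Coprime q) (hy : ∀ n, (p : ℚ) * y (n + 1) = q * y n - a n)
    (h0 : (y 0).den = 1) {n m : ℕ} (h : n ≤ m) : (y n).den ∣ (y m).den := by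
  induction m, h using Nat.le_induction with
  | base => rfl
  | succ m _ ih => exact ih.trans (den_dvd_succ hc hy h0 m)

lemma den_ne_succ (hc : p.Coprime q) (hy : ∀ n, (p : ℚ) * y (n + 1) = q * y n - a n)
    (h0 : (y 0).den = 1) (h1 : (y 1).den ≠ 1) (n : ℕ) : (y (n + 1)).den ≠ (y n).den := by
  rcases n with _ | n
  · rwa [h0]
  intro h
  have h2 : (y (n + 1)).den ≠ 1 := fun e =>
    h1 (Nat.dvd_one.mp (e ▸ den_dvd_of_le hc hy h0 (by omega)))
  obtain ⟨l, hl, hld⟩ := Nat.exists_prime_and_dvd h2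
  have hlp : l ∣ p := hl.dvd_of_dvd_pow (hld.trans (den_dvd_pow hy h0 _))
  have h3 : (q : ℤ) * (y (n + 1)).num
      = p * (y (n + 1 + 1)).num + (y (n + 1)).den * a (n + 1) := by
    have : (q : ℚ) * (y (n + 1)).num
        = p * (y (n + 1 + 1)).num + (y (n + 1)).den * a (n + 1) := by
      rw [← Rat.mul_den_eq_num, ← Rat.mul_den_eq_num, h]
      linear_combination -((y (n + 1)).den : ℚ) * hy (n + 1)
    exact_mod_cast this
  have h4 : (l : ℤ) ∣ q * (y (n + 1)).num := by
    rw [h3]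
    exact dvd_add ((Int.natCast_dvd_natCast.mpr hlp).mul_right _)
      ((Int.natCast_dvd_natCast.mpr hld).mul_right _)
  rw [Int.natCast_dvd, Int.natAbs_mul, Int.natAbs_natCast, hl.dvd_mul] at h4
  rcases h4 with h4 | h4
  · exact hl.one_lt.ne' (Nat.dvd_one.mp (hc ▸ Nat.dvd_gcd hlp h4))
  · exact hl.one_lt.ne' (Nat.dvd_one.mp ((y (n + 1)).reduced ▸ Nat.dvd_gcd h4 hld))

lemma int_comb (hc : p.Coprime q) (hy : ∀ n, (p : ℚ) * y (n + 1) = q * y n - a n)
    (h0 : (y 0).den = 1) (d : ℕ → ℤ) (r : ℕ) :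
    ∃ z : ℤ, ((y r).den : ℚ) * ∑ i ∈ range r, d i * y (i + 1) = z := by
  have : ∀ i ∈ range r, ∃ z : ℤ, ((y r).den : ℚ) * (d i * y (i + 1)) = z := by
    intro i hi
    obtain ⟨z, hz⟩ := (den_dvd_iff (y (i + 1)) (y r).den).mp
      (Int.natCast_dvd_natCast.mpr (den_dvd_of_le hc hy h0 (mem_range.mp hi)))
    refine ⟨d i * z, ?_⟩
    push_cast at hz ⊢
    rw [← hz]
    ring
  choose! z hz using this
  refine ⟨∑ i ∈ range r, z i, ?_⟩
  rw [mul_sum, sum_congr rfl hz]
  push_cast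
  rfl

lemma comb_eq_zero (hc : p.Coprime q) (hy : ∀ n, (p : ℚ) * y (n + 1) = q * y n - a n)
    (h0 : (y 0).den = 1) (d : ℕ → ℤ) (r : ℕ)
    (hd : ∀ i < r, |d i| < ((y (i + 1)).den / (y i).den : ℕ))
    (h : ∑ i ∈ range r, d i * y (i + 1) = 0) : ∀ i < r, d i = 0 := by
  induction r with
  | zero => simp
  | succ r ih =>
    rw [sum_range_succ] at h
    obtain ⟨z, hz⟩ := int_comb hc hy h0 d r
    obtain ⟨k, hk⟩ := den_dvd_succ hc hy h0 r
    have h1 : ((y (r + 1)).den : ℤ) ∣ (y r).den * d r := by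
      rw [den_dvd_iff]
      refine ⟨-z, ?_⟩
      push_cast
      rw [← hz]
      linear_combination ((y r).den : ℚ) * h
    have h2 := hd r (by omega)
    rw [hk, Nat.mul_div_cancel_left _ (y r).den_pos] at h2
    rw [hk, Nat.cast_mul, mul_dvd_mul_iff_left (by exact_mod_cast (y r).den_nz)] at h1
    have h3 : d r = 0 := Int.eq_zero_of_abs_lt_dvd h1 h2
    rw [h3, Int.cast_zero, zero_mul, add_zero] at h
    intro i hi
    rcases Nat.lt_succ_iff_lt_or_eq.mp hi with hi | rfl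
    · exact ih (fun i hi => hd i (by omega)) h i hi
    · exact h3

end den

lemma no_escape {p q M D : ℕ} (hp : 0 < p) (hpq : p < q) (hc : p.Coprime q) (hM : 0 < M)
    (hD : 0 < D) (hq : 900 * p ^ 4 * M ^ 2 * q.size * (q ^ 3 * D).size ≤ q ^ 2)
    (y : ℕ → ℚ) (u : ℕ → ℕ) (hu : ∀ n, u n ≤ M)
    (hy : ∀ n, y n = D * u n + p / q * y (n + 1)) (hb : ∀ n, |y n| ≤ 2 * M * D)
    (h0 : (y 0).den = 1) : (y 1).den = 1 := by
  by_contra h1
  have hq0 : 0 < q := hp.trans hpq
  have hqq : (q : ℚ) ≠ 0 := by exact_mod_cast hq0.ne'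
  have hy' : ∀ n, (p : ℚ) * y (n + 1) = q * y n - ((q * D * u n : ℤ) : ℚ) := by
    intro n
    rw [hy n]
    push_cast
    field_simp
    ring
  set b := q.size with hb'
  set s := (q ^ 3 * D).size with hs'
  set r := b * s with hr
  have hb0 : 0 < b := Nat.size_pos.mpr hq0
  have hs0 : 0 < s := Nat.size_pos.mpr (by positivity)
  have hr0 : 0 < r := Nat.mul_pos hb0 hs0
  let h : ℕ → ℕ := fun i => (y (i + 1)).den / (y i).den
  have hh : ∀ i, (y (i + 1)).den = (y i).den * h i := fun i =>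
    (Nat.mul_div_cancel' (den_dvd_succ hc hy' h0 i)).symm
  have hh2 : ∀ i, 2 ≤ h i := by
    intro i
    by_contra hlt
    have h2 := hh i
    have h3 := den_ne_succ hc hy' h0 h1 i
    have h4 := (y (i + 1)).den_pos
    obtain h5 | h5 : h i = 0 ∨ h i = 1 := by omega
    · rw [h5] at h2; omega
    · rw [h5] at h2; omega
  have hhp : ∀ i, h i ≤ p := by
    intro i
    have h2 := den_succ_dvd hy' i
    rw [hh i, mul_comm p, Nat.mul_dvd_mul_iff_left (y i).den_pos] at h2
    exact Nat.le_of_dvd hp h2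
  have hprod : ∀ n, ∏ i ∈ range n, h i = (y n).den := by
    intro n
    induction n with
    | zero => simp [h0]
    | succ n ih => rw [prod_range_succ, ih, hh]
  set g := (y r).den with hg
  have hg2 : 2 ^ r ≤ g := by
    rw [hg, ← hprod]
    simpa using prod_le_prod' (s := range r) (f := fun _ => 2) fun i _ => hh2 i
  have hpR : (0 : ℝ) < p := by exact_mod_cast hp
  have hqR : (0 : ℝ) < q := by exact_mod_cast hq0
  have hMR : (1 : ℝ) ≤ M := by exact_mod_cast hM
  have hDR : (1 : ℝ) ≤ D := by exact_mod_cast hD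
  have hrR : (1 : ℝ) ≤ r := by exact_mod_cast hr0
  have hp1 : (1 : ℝ) ≤ p := by exact_mod_cast hp
  have hgR : (1 : ℝ) ≤ g := by exact_mod_cast (y r).den_pos
  set β : ℝ := q / p with hβ
  have hβ1 : 1 < β := (one_lt_div hpR).mpr (by exact_mod_cast hpq)
  have hβq : β ≤ q := div_le_self hqR.le hp1
  have hβ2 : 900 * (r * p ^ 2 * M ^ 2) ≤ β ^ 2 := by
    rw [hβ, div_pow, le_div_iff₀ (by positivity)]
    have : ((900 * p ^ 4 * M ^ 2 * b * s : ℕ) : ℝ) ≤ (q ^ 2 : ℕ) := by exact_mod_cast hq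
    rw [hr]
    push_cast at this ⊢
    linarith
  have hK : (1 : ℝ) ≤ D * (r * p * M) := by
    refine one_le_mul_of_one_le_of_one_le hDR (one_le_mul_of_one_le_of_one_le ?_ hMR)
    exact one_le_mul_of_one_le_of_one_le hrR hp1
  have hex : ∃ L : ℕ, 2 * (D * (r * p * M)) * g < β ^ L := pow_unbounded_of_one_lt _ hβ1
  classical
  set L := Nat.find hex with hL
  have hL1 : 2 * (D * (r * p * M)) * g < β ^ L := Nat.find_spec hex
  have hgL : (g : ℝ) < β ^ L := by nlinarith
  have hL0 : L ≠ 0 := by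
    intro e
    rw [e, pow_zero] at hgL
    linarith
  have hL2 : β ^ (L - 1) ≤ 2 * (D * (r * p * M)) * g :=
    not_lt.mp (Nat.find_min hex (by omega))
  have hsL : s < L := by
    have h2 : (2 : ℝ) ^ r < 2 ^ (b * L) := by
      have h3 : β ≤ 2 ^ b := hβq.trans (by exact_mod_cast (Nat.lt_size_self q).le)
      calc (2 : ℝ) ^ r ≤ g := by exact_mod_cast hg2
        _ < β ^ L := hgL
        _ ≤ (2 ^ b) ^ L := pow_le_pow_left₀ (by linarith) h3 L
        _ = _ := (pow_mul _ _ _).symm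
    exact Nat.lt_of_mul_lt_mul_left ((pow_lt_pow_iff_right₀ one_lt_two).mp h2)
  have hcount : (15 * (β / 30)) ^ L < ((∏ i : Fin r, h i : ℕ) : ℝ) := by
    rw [Fin.prod_univ_eq_prod_range, hprod, ← hg]
    have h2 : (q : ℝ) ^ 3 * D < 2 ^ L := by
      have h3 : q ^ 3 * D < 2 ^ L :=
        (Nat.lt_size_self _).trans (Nat.pow_lt_pow_right one_lt_two hsL)
      exact_mod_cast h3
    have h4 : (r * p * M : ℝ) ≤ r * p ^ 2 * M ^ 2 := by
      have : (1 : ℝ) ≤ p * M := one_le_mul_of_one_le_of_one_le hp1 hMR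
      calc (r * p * M : ℝ) = r * p * M * 1 := (mul_one _).symm
        _ ≤ r * p * M * (p * M) := by gcongr
        _ = _ := by ring
    have h5 : β * (2 * (r * p * M)) ≤ q ^ 3 := by
      calc β * (2 * (r * p * M)) ≤ β * β ^ 2 := by
            refine mul_le_mul_of_nonneg_left ?_ (by linarith)
            have : (0 : ℝ) ≤ r * p * M := by positivity
            linarith
        _ = β ^ 3 := by ring
        _ ≤ q ^ 3 := pow_le_pow_left₀ (by linarith) hβq 3
    have h6 : β ^ L = β * β ^ (L - 1) := by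
      rw [← pow_succ']
      congr 1
      omega
    rw [show 15 * (β / 30) = β / 2 by ring, div_pow, div_lt_iff₀ (by positivity), h6]
    calc β * β ^ (L - 1) ≤ β * (2 * (D * (r * p * M)) * g) :=
          mul_le_mul_of_nonneg_left hL2 (by linarith)
      _ = g * (β * (2 * (r * p * M)) * D) := by ring
      _ ≤ g * (q ^ 3 * D) := by gcongr
      _ < g * 2 ^ L := by gcongr
  have hσ2 : (r * p ^ 2 * M ^ 2 : ℝ) ≤ (β / 30) ^ 2 := by
    rw [div_pow]
    linarith
  have hσ : 1 ≤ β / 30 := by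
    have h2 : (1 : ℝ) ≤ r * p ^ 2 * M ^ 2 :=
      one_le_mul_of_one_le_of_one_le (one_le_mul_of_one_le_of_one_le hrR (one_le_pow₀ hp1))
        (one_le_pow₀ hMR)
    nlinarith
  obtain ⟨d0, hd0, hd1, hd2⟩ := exists_collision (r := r) (L := L) (fun i => h i) p M
    (fun i => hhp i) (fun j i => u (i + 1 + j)) (fun j i => hu _) (β / 30) hσ hσ2 hcount
  let d : ℕ → ℤ := fun i => if hi : i < r then d0 ⟨i, hi⟩ else 0
  have hdd : ∀ i : Fin r, d i = d0 i := fun i => dif_pos i.isLt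
  have hdh : ∀ i < r, |d i| < h i := fun i hi => by
    rw [hdd ⟨i, hi⟩]
    exact hd1 ⟨i, hi⟩
  have hne : ∑ i ∈ range r, d i * y (i + 1) ≠ 0 := fun e =>
    hd0 (funext fun i => (hdd i).symm.trans (comb_eq_zero hc hy' h0 d r hdh e i i.isLt))
  have hsh : ∀ j ≤ L, ∑ i ∈ range r, d i * y (i + 1)
      = (p / q) ^ j * ∑ i ∈ range r, d i * y (i + 1 + j) := by
    intro j hj
    induction j with
    | zero => simp
    | succ j ih =>
      have h2 : ∑ i ∈ range r, (d i : ℚ) * u (i + 1 + j) = 0 := by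
        have h3 := hd2 ⟨j, hj⟩
        simp only [← hdd] at h3
        rw [Fin.sum_univ_eq_sum_range (fun i => d i * (u (i + 1 + j) : ℤ))] at h3
        exact_mod_cast h3
      rw [ih (by omega), pow_succ, mul_assoc]
      congr 1
      calc _ = ∑ i ∈ range r, (D * ((d i : ℚ) * u (i + 1 + j))
            + p / q * (d i * y (i + 1 + (j + 1)))) := sum_congr rfl fun i _ => by
            rw [hy (i + 1 + j), add_assoc (i + 1) j 1]
            ring
        _ = _ := by rw [sum_add_distrib, ← mul_sum, ← mul_sum, h2, mul_zero, zero_add]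
  obtain ⟨z, hz⟩ := int_comb hc hy' h0 d r
  have hz0 : z ≠ 0 := by
    rintro rfl
    exact mul_ne_zero (Nat.cast_ne_zero.mpr (y r).den_nz) hne (hz.trans Int.cast_zero)
  have h7 : |∑ i ∈ range r, d i * y (i + 1 + L)| ≤ r * (p * (2 * M * D)) := by
    refine (abs_sum_le_sum_abs _ _).trans ?_
    have : ∀ i ∈ range r, |d i * y (i + 1 + L)| ≤ p * (2 * M * D) := by
      intro i hi
      rw [abs_mul]
      refine mul_le_mul ?_ (hb _) (abs_nonneg _) (by positivity)
      have h8 := hdh i (mem_range.mp hi)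
      have h9 := hhp i
      have : |d i| ≤ (p : ℤ) := by omega
      exact_mod_cast this
    simpa using sum_le_sum this
  have h8 : (1 : ℚ) ≤ g * ((p / q) ^ L * (r * (p * (2 * M * D)))) := by
    calc (1 : ℚ) ≤ |(z : ℚ)| := by exact_mod_cast Int.one_le_abs hz0
      _ = g * ((p / q) ^ L * |∑ i ∈ range r, d i * y (i + 1 + L)|) := by
          rw [← hz, hsh L le_rfl, abs_mul, abs_mul, abs_of_nonneg (by positivity),
            abs_of_nonneg (a := ((p : ℚ) / q) ^ L) (by positivity)]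
      _ ≤ _ := by gcongr
  have h9 : (1 : ℝ) ≤ g * ((p / q) ^ L * (r * (p * (2 * M * D)))) := by
    have := (Rat.cast_le (K := ℝ)).mpr h8
    push_cast at this
    exact this
  have h10 : ((p : ℝ) / q) ^ L * β ^ L = 1 := by
    rw [← mul_pow, hβ, div_mul_div_cancel₀ hqR.ne', div_self hpR.ne', one_pow]
  have h11 : (0 : ℝ) < (p / q) ^ L := by positivity
  nlinarith [mul_lt_mul_of_pos_left hL1 h11]

lemma summable_bdd {l C : ℝ} (h0 : 0 ≤ l) (h1 : l < 1) {w : ℕ → ℝ} (hw : ∀ k, |w k| ≤ C) :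
    Summable fun k => w k * l ^ k := by
  refine Summable.of_norm_bounded ((summable_geometric_of_lt_one h0 h1).mul_left C) fun k => ?_
  rw [Real.norm_eq_abs, abs_mul, abs_of_nonneg (pow_nonneg h0 k)]
  exact mul_le_mul_of_nonneg_right (hw k) (pow_nonneg h0 k)

lemma abs_tsum_le {l C : ℝ} (h0 : 0 ≤ l) (h1 : l < 1) {w : ℕ → ℝ} (hw : ∀ k, |w k| ≤ C) :
    |∑' k, w k * l ^ k| ≤ C * (1 - l)⁻¹ := by
  refine tsum_of_norm_bounded (f := fun k => w k * l ^ k)
    ((hasSum_geometric_of_lt_one h0 h1).mul_left C) fun k => ?_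
  rw [Real.norm_eq_abs, abs_mul, abs_of_nonneg (pow_nonneg h0 k)]
  exact mul_le_mul_of_nonneg_right (hw k) (pow_nonneg h0 k)

lemma tsum_step {l C : ℝ} (h0 : 0 ≤ l) (h1 : l < 1) {w : ℕ → ℝ} (hw : ∀ k, |w k| ≤ C) :
    ∑' k, w k * l ^ k = w 0 + l * ∑' k, w (k + 1) * l ^ k := by
  rw [(summable_bdd h0 h1 hw).tsum_eq_zero_add, pow_zero, mul_one, ← tsum_mul_left]
  congr 1
  exact tsum_congr fun k => by ring

theorem periodic_of_small {p q M : ℕ} {t : ℚ} {u : ℕ → ℕ} (hp : 0 < p) (hpq : p < q)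
    (hc : p.Coprime q) (hu : ∀ n, u n ≤ M)
    (hq : 900 * p ^ 4 * M ^ 2 * q.size * (q ^ 3 * t.den).size ≤ q ^ 2)
    (ht : ∑' n, (u n : ℝ) * ((p : ℝ) / q) ^ n = t) :
    ∃ n m, 0 < m ∧ ∀ k, n ≤ k → u (k + m) = u k := by
  rcases Nat.eq_zero_or_pos M with rfl | hM
  · exact ⟨0, 1, one_pos, fun k _ => by have := hu k; have := hu (k + 1); omega⟩
  have hq0 : 0 < q := hp.trans hpq
  have hpR : (0 : ℝ) < p := by exact_mod_cast hp
  have hqR : (0 : ℝ) < q := by exact_mod_cast hq0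
  have hMR : (1 : ℝ) ≤ M := by exact_mod_cast hM
  set l : ℝ := p / q with hl
  have hl0 : 0 < l := div_pos hpR hqR
  have hlM : l * (2 * M) < 1 := by
    have h1 : (30 * p * M) ^ 2 ≤ q ^ 2 := by
      refine le_trans ?_ hq
      have h2 : 1 ≤ q.size := Nat.size_pos.mpr hq0
      have h3 : 1 ≤ (q ^ 3 * t.den).size := Nat.size_pos.mpr (Nat.mul_pos (by positivity) t.den_pos)
      calc (30 * p * M) ^ 2 = 900 * (p ^ 2 * 1) * M ^ 2 * 1 * 1 := by ring
        _ ≤ 900 * (p ^ 2 * p ^ 2) * M ^ 2 * q.size * (q ^ 3 * t.den).size := by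
          gcongr
          exact Nat.one_le_pow _ _ hp
        _ = _ := by ring
    have h2 : 30 * p * M ≤ q := (Nat.pow_le_pow_iff_left two_ne_zero).mp h1
    have h3 : (30 * p * M : ℝ) ≤ q := by exact_mod_cast h2
    rw [hl, div_mul_eq_mul_div, div_lt_one hqR]
    nlinarith
  have hl1 : l < 1 / 2 := by nlinarith
  have hw : ∀ n k, |(u (n + k) : ℝ)| ≤ M := fun n k => by
    rw [Nat.abs_cast]
    exact_mod_cast hu _
  let x : ℕ → ℝ := fun n => ∑' k, (u (n + k) : ℝ) * l ^ k
  have hx : ∀ n, x n = u n + l * x (n + 1) := fun n => by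
    simp only [x]
    rw [tsum_step hl0.le (by linarith) (hw n)]
    simp only [add_zero, add_assoc, add_comm 1]
  have hx0 : ∀ n, 0 ≤ x n := fun n => tsum_nonneg fun k => by positivity
  have hx1 : ∀ n, |x n| ≤ 2 * M := fun n => by
    refine (abs_tsum_le hl0.le (by linarith) (hw n)).trans ?_
    rw [mul_inv_le_iff₀ (by linarith)]
    nlinarith
  obtain ⟨y, hy0, hys⟩ : ∃ y : ℕ → ℚ, y 0 = t.den * t ∧
      ∀ n, y (n + 1) = q / p * (y n - t.den * u n) :=
    ⟨fun n => Nat.rec (t.den * t) (fun n z => q / p * (z - t.den * u n)) n, rfl, fun _ => rfl⟩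
  have hy : ∀ n, y n = t.den * u n + p / q * y (n + 1) := fun n => by
    have h1 : (p : ℚ) ≠ 0 := by exact_mod_cast hp.ne'
    have h2 : (q : ℚ) ≠ 0 := by exact_mod_cast hq0.ne'
    rw [hys]
    field_simp
    ring
  have hyx : ∀ n : ℕ, ((y n : ℚ) : ℝ) = t.den * x n := by
    intro n
    induction n with
    | zero =>
      have h2 : x 0 = t := by simpa [x] using ht
      rw [hy0, h2]
      push_cast
      rfl
    | succ n ih =>
      have h1 : ((y n : ℚ) : ℝ) = t.den * u n + l * (y (n + 1) : ℚ) := by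
        rw [hy n]
        push_cast
        rfl
      rw [ih, hx n] at h1
      exact mul_left_cancel₀ hl0.ne' (by linear_combination -h1)
  have hb : ∀ n, |y n| ≤ 2 * M * t.den := fun n => by
    have h1 : |((y n : ℚ) : ℝ)| ≤ 2 * M * t.den := by
      rw [hyx, abs_mul, Nat.abs_cast, mul_comm]
      exact mul_le_mul_of_nonneg_right (hx1 n) (Nat.cast_nonneg _)
    exact_mod_cast h1
  have hden : ∀ n, (y n).den = 1 := by
    intro n
    induction n with
    | zero =>
      have h1 : y 0 = t.num := hy0.trans ((mul_comm _ _).trans (Rat.mul_den_eq_num t))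
      rw [h1]
      rfl
    | succ n ih =>
      exact no_escape hp hpq hc hM t.den_pos hq (fun k => y (n + k)) (fun k => u (n + k))
        (fun k => hu _) (fun k => hy (n + k)) (fun k => hb _) ih
  have hmem : ∀ n, (y n).num ∈ Finset.Icc (-(2 * M * t.den : ℤ)) (2 * M * t.den) := fun n => by
    have h1 := hb n
    rw [← Rat.coe_int_num_of_den_eq_one (hden n)] at h1
    rw [mem_Icc, ← abs_le]
    exact_mod_cast h1
  obtain ⟨n, m, hnm, he⟩ := Set.Finite.exists_lt_map_eq_of_forall_mem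
    (f := fun n => (y n).num) (fun n => mem_coe.mpr (hmem n)) (finite_toSet _)
  have he1 : x n = x m := by
    have h1 : y n = y m := Rat.ext he ((hden n).trans (hden m).symm)
    have h2 := hyx n
    rw [h1, hyx m] at h2
    exact (mul_left_cancel₀ (by exact_mod_cast t.den_nz) h2).symm
  have step : ∀ a b, x a = x b → u a = u b ∧ x (a + 1) = x (b + 1) := by
    intro a b hab
    have h1 : ∀ c, ⌊x c⌋₊ = u c := fun c => by
      rw [Nat.floor_eq_iff (hx0 c), hx c]
      have h2 := hx0 (c + 1)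
      have h3 := (abs_le.mp (hx1 (c + 1))).2
      constructor <;> nlinarith
    have h2 : u a = u b := by rw [← h1, ← h1, hab]
    refine ⟨h2, mul_left_cancel₀ hl0.ne' ?_⟩
    rw [hx a, hx b, h2] at hab
    linarith
  have all : ∀ k, x (n + k) = x (m + k) := by
    intro k
    induction k with
    | zero => exact he1
    | succ k ih => exact (step _ _ ih).2
  refine ⟨n, m - n, by omega, fun k hk => ?_⟩
  obtain ⟨j, rfl⟩ := Nat.exists_eq_add_of_le hk
  rw [show n + j + (m - n) = m + j by omega]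
  exact (step _ _ (all j)).1.symm

end Pool.Agent.P.MP_926cae_lc
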