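import Pool.Agent.P.MP_926cae_lc.Defs
import Pool.Agent.P.MP_926cae_lc.Period

/-! Basic facts on plays and their discounted sums. -/

namespace Pool.Agent.P.MP_926cae_lc

open Set

/-- The real weight of an edge. -/
abbrev wt (e : Edge) : ℝ := (qv e.2.2 : ℝ)

/-- The shifted sequence. -/
def sh (n : ℕ) (c : ℕ → Edge) : ℕ → Edge := fun k => c (k + n)

/-- The first `n` edges of `c`, followed by `d`. -/
def cat (n : ℕ) (c d : ℕ → Edge) : ℕ → Edge := fun k => if k < n then c k else d (k - n)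

variable {E E' : Set Edge} {v : ℕ} {c d : ℕ → Edge} {l W : ℝ}

lemma IsPlay.mono (h : IsPlay E v c) (hE : ∀ k, c k ∈ E') : IsPlay E' v c := ⟨hE, h.2⟩

lemma IsPlay.sh (h : IsPlay E v c) (n : ℕ) : IsPlay E (c n).1 (sh n c) :=
  ⟨fun _ => h.1 _, by simp [MP_926cae_lc.sh], fun k => by
    simp only [MP_926cae_lc.sh, Nat.add_right_comm k 1 n]
    exact h.2.2 _⟩

lemma IsPlay.cat (h : IsPlay E v c) {n : ℕ} (h' : IsPlay E (c n).1 d) : IsPlay E v (cat n c d) := by
  refine ⟨fun k => ?_, ?_, fun k => ?_⟩ <;> unfold MP_926cae_lc.cat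
  · split_ifs
    exacts [h.1 _, h'.1 _]
  · split_ifs with h0
    · exact h.2.1
    · obtain rfl : n = 0 := by omega
      exact h'.2.1.trans h.2.1
  · split_ifs with h1 h2 h2
    · exact h.2.2 k
    · obtain rfl : n = k + 1 := by omega
      rw [Nat.sub_self, h'.2.1]
      exact h.2.2 k
    · omega
    · rw [show k + 1 - n = k - n + 1 by omega]
      exact h'.2.2 _

lemma sh_cat (n : ℕ) (c d : ℕ → Edge) : sh n (cat n c d) = d := by
  funext k
  simp [sh, cat]

lemma disc_step (h0 : 0 ≤ l) (h1 : l < 1) (hw : ∀ k, |wt (c k)| ≤ W) :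
    disc l c = wt (c 0) + l * disc l (sh 1 c) := tsum_step h0 h1 hw

lemma disc_split (h0 : 0 ≤ l) (h1 : l < 1) (hw : ∀ k, |wt (c k)| ≤ W) (n : ℕ) :
    disc l c = ∑ k ∈ Finset.range n, wt (c k) * l ^ k + l ^ n * disc l (sh n c) := by
  rw [disc, ← (summable_bdd h0 h1 hw).sum_add_tsum_nat_add n, disc, ← tsum_mul_left]
  congr 1
  exact tsum_congr fun k => by simp only [sh]; ring

lemma disc_cat (h0 : 0 ≤ l) (h1 : l < 1) (hE : ∀ e ∈ E, |wt e| ≤ W) (h : IsPlay E v c) {n : ℕ}
    (h' : IsPlay E (c n).1 d) :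
    disc l (cat n c d) = disc l c + l ^ n * (disc l d - disc l (sh n c)) := by
  rw [disc_split h0 h1 (fun k => hE _ ((h.cat h').1 k)) n, disc_split h0 h1
    (fun k => hE _ (h.1 k)) n, sh_cat, Finset.sum_congr rfl
    (g := fun k => wt (c k) * l ^ k) fun k hk => by simp [cat, Finset.mem_range.mp hk]]
  ring

lemma abs_disc_le (h0 : 0 ≤ l) (h1 : l < 1) (hw : ∀ k, |wt (c k)| ≤ W) :
    |disc l c| ≤ W * (1 - l)⁻¹ := abs_tsum_le h0 h1 hw

lemma exists_bound (hE : E.Finite) : ∃ W, ∀ e ∈ E, |wt e| ≤ W := by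
  obtain ⟨W, hW⟩ := (hE.image fun e => |wt e|).bddAbove
  exact ⟨W, fun e he => hW ⟨e, he, rfl⟩⟩

/-- A bounded set of pairs that is closed under taking a successor consists of values of plays. -/
lemma exists_play_of_closed (h0 : 0 ≤ l) (h1 : l < 1) (hE : E.Finite) {P : Set (ℕ × ℝ)} {B : ℝ}
    (hB : ∀ s ∈ P, |s.2| ≤ B)
    (hP : ∀ s ∈ P, ∃ e ∈ E, ∃ s' ∈ P, e.1 = s.1 ∧ e.2.1 = s'.1 ∧ s.2 = wt e + l * s'.2)
    {s : ℕ × ℝ} (hs : s ∈ P) : ∃ c, IsPlay E s.1 c ∧ disc l c = s.2 := by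
  obtain ⟨W, hW⟩ := exists_bound hE
  choose! e he f hf h2 h3 h4 using hP
  have hm : ∀ k, f^[k] s ∈ P := by
    intro k
    induction k with
    | zero => exact hs
    | succ k ih => rw [Function.iterate_succ_apply']; exact hf _ ih
  refine ⟨fun k => e (f^[k] s), ⟨fun k => he _ (hm k), h2 s hs, fun k => ?_⟩, ?_⟩
  · rw [h3 _ (hm k), h2 _ (hm (k + 1)), Function.iterate_succ_apply']
  · have h5 : ∀ n, ∑ k ∈ Finset.range n, wt (e (f^[k] s)) * l ^ k
        = s.2 - l ^ n * (f^[n] s).2 := by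
      intro n
      induction n with
      | zero => simp
      | succ n ih =>
        rw [Finset.sum_range_succ, ih, h4 _ (hm n), Function.iterate_succ_apply']
        ring
    have h6 := (summable_bdd h0 h1 fun k => hW _ (he _ (hm k))).hasSum.tendsto_sum_nat
    simp only [h5] at h6
    have h7 : Filter.Tendsto (fun n => l ^ n * (f^[n] s).2) Filter.atTop (nhds 0) := by
      refine squeeze_zero_norm (a := fun n => l ^ n * B) (fun n => ?_) ?_
      · rw [Real.norm_eq_abs, abs_mul, abs_of_nonneg (pow_nonneg h0 n)]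
        exact mul_le_mul_of_nonneg_left (hB _ (hm n)) (pow_nonneg h0 n)
      · simpa using (tendsto_pow_atTop_nhds_zero_of_lt_one h0 h1).mul_const B
    exact tendsto_nhds_unique h6 (by simpa using h7.const_sub s.2)

lemma OnCycle.mem {e : Edge} {n : ℕ} (h : OnCycle E e n) : e ∈ E := by
  obtain ⟨-, c, hc, rfl, -⟩ := h
  exact hc.1 0

lemma cyc_subset : cyc E ⊆ E := fun _ ⟨_, h⟩ => h.mem

/-- A closed walk gives a periodic play along edges that lie on closed walks. -/
lemma OnCycle.periodic {e : Edge} {n : ℕ} (h : OnCycle E e n) :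
    ∃ c, IsPlay (cyc E) e.1 c ∧ c 0 = e ∧ sh n c = c := by
  obtain ⟨hn, c, hc, h0, h1⟩ := h
  have hp : IsPlay E e.1 fun k => c (k % n) := by
    refine ⟨fun k => hc.1 _, by simpa using hc.2.1, fun k => ?_⟩
    rw [hc.2.2]
    have h2 := Nat.mod_lt k hn
    by_cases h3 : k % n + 1 = n
    · have h4 : (k + 1) % n = 0 := by rw [← Nat.mod_add_mod, h3, Nat.mod_self]
      simp only [h3, h4, h1, h0]
    · have h4 : (k + 1) % n = k % n + 1 := by
        rw [← Nat.mod_add_mod, Nat.mod_eq_of_lt (by omega)]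
      simp only [h4]
  refine ⟨fun k => c (k % n), hp.mono fun k => ⟨n, hn, _, hp.sh k, by simp [sh], ?_⟩, by simpa,
    funext fun k => by simp [sh]⟩
  simp [sh]

/-- A play in a finite graph eventually uses only edges on closed walks. -/
lemma IsPlay.eventually_cyc (hE : E.Finite) (h : IsPlay E v c) : ∃ n, ∀ k, c (k + n) ∈ cyc E := by
  have h1 : {k | c k ∉ cyc E}.Finite := by
    refine (hE.preimage (s := E) (f := fun k : {k | c k ∉ cyc E} => c k) ?_).subset
      (t := univ) (fun k _ => h.1 k) |> finite_coe_iff.mp ∘ finite_univ_iff.mp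
    rintro ⟨i, hi⟩ - ⟨j, hj⟩ - (hij : c i = c j)
    by_contra hne
    have hne' : i ≠ j := fun e => hne (Subtype.ext e)
    have key : ∀ i j, i < j → c i = c j → c i ∈ cyc E := fun i j hlt e =>
      ⟨j - i, by omega, _, h.sh i, by simp [MP_926cae_lc.sh], by
        simp only [MP_926cae_lc.sh, Nat.sub_add_cancel hlt.le, e]⟩
    rcases lt_or_gt_of_ne hne' with hlt | hlt
    · exact hi (key i j hlt hij)
    · exact hj (key j i hlt hij.symm)
  obtain ⟨n, hn⟩ := h1.bddAbove
  refine ⟨n + 1, fun k => ?_⟩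
  by_contra hk
  have := hn hk
  omega

/-- Closed walks can be shortened to the number of vertices. -/
lemma OnCycle.short {L : List Edge} {e : Edge} {n : ℕ} (h : OnCycle {e | e ∈ L} e n) :
    ∃ m ≤ (L.map Prod.fst).toFinset.card, OnCycle {e | e ∈ L} e m := by
  induction n using Nat.strong_induction_on with
  | _ n ih =>
    by_cases hn : n ≤ (L.map Prod.fst).toFinset.card
    · exact ⟨n, hn, h⟩
    obtain ⟨h0, c, hc, h1, h2⟩ := h
    obtain ⟨i, hi, j, hj, hij, he⟩ : ∃ i ∈ Finset.Icc 1 n, ∃ j ∈ Finset.Icc 1 n, i < j ∧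
        (c i).1 = (c j).1 := by
      obtain ⟨i, hi, j, hj, hij, he⟩ := Finset.exists_ne_map_eq_of_card_lt_of_maps_to
        (s := Finset.Icc 1 n) (t := (L.map Prod.fst).toFinset) (by simpa using hn)
        (f := fun k => (c k).1) fun k _ => by
          simp only [List.coe_toFinset, List.mem_map, mem_ofPred_eq]
          exact ⟨_, hc.1 k, rfl⟩
      rcases lt_or_gt_of_ne hij with hlt | hlt
      exacts [⟨i, hi, j, hj, hlt, he⟩, ⟨j, hj, i, hi, hlt, he.symm⟩]
    rw [Finset.mem_Icc] at hi hj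
    have hj' : IsPlay {e | e ∈ L} (c i).1 (sh j c) := he ▸ hc.sh j
    refine ih (n - (j - i)) (by omega) ⟨by omega, _, hc.cat hj', ?_, ?_⟩
    · rw [cat, if_pos (by omega), h1]
    · rw [cat, if_neg (by omega), sh, show n - (j - i) - i + j = n by omega, h2]

end Pool.Agent.P.MP_926cae_lc
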