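import Pool.Agent.P.MP_926cae_lc.Comp
import Pool.Agent.P.MP_926cae_lc.Plays

/-! Soundness and completeness of the certificates. -/

namespace Pool.Agent.P.MP_926cae_lc

open Set

section transfer

variable {K K' : Type} {le : K → K → Prop} {le' : K' → K' → Prop} {E : Set Edge}
  {g : Edge → K → K} {g' : Edge → K' → K'} {φ : K → K'}

def mp (φ : K → K') (I : Iv K) : Iv K' := (I.1, φ I.2.1, φ I.2.2)

def mq (φ : K → K') (I : ℕ × Iv K) : ℕ × Iv K' := (I.1, mp φ I.2)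

lemma pc_map (hg : ∀ e x, φ (g e x) = g' e (φ x)) (F : Set (Iv K)) :
    pc E g' (mp φ '' F) = mp φ '' pc E g F := by
  ext J
  constructor
  · rintro ⟨e, he, _, ⟨I, hI, rfl⟩, h, rfl⟩
    exact ⟨_, ⟨e, he, I, hI, h, rfl⟩, by simp [mp, hg]⟩
  · rintro ⟨_, ⟨e, he, I, hI, h, rfl⟩, rfl⟩
    exact ⟨e, he, _, ⟨I, hI, rfl⟩, h, by simp [mp, hg]⟩

lemma cov_map {T : Set K} (hT : ∀ x ∈ T, ∀ y ∈ T, le' (φ x) (φ y) ↔ le x y) {F P : Set (Iv K)}
    (hF : ∀ I ∈ F, I.2.1 ∈ T ∧ I.2.2 ∈ T) (hP : ∀ I ∈ P, I.2.1 ∈ T ∧ I.2.2 ∈ T) :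
    Cov le' (mp φ '' F) (mp φ '' P) ↔ Cov le F P := by
  simp only [Cov, forall_mem_image, exists_mem_image, mp]
  refine forall₂_congr fun I hI => and_congr
    (exists_congr fun J => and_congr_right fun hJ => ?_) (forall₂_congr fun J hJ => ?_)
  · rw [hT _ (hP J hJ).1 _ (hF I hI).1, hT _ (hF I hI).1 _ (hP J hJ).2]
  · rw [hT _ (hF I hI).1 _ (hP J hJ).2, hT _ (hF I hI).2 _ (hP J hJ).2]
    refine forall₃_congr fun _ _ _ => exists_congr fun J' => and_congr_right fun hJ' => ?_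
    rw [hT _ (hP J' hJ').1 _ (hP J hJ).2, hT _ (hP J' hJ').2 _ (hP J hJ).2]

lemma yesC_map {T : Set K} (hT : ∀ x ∈ T, ∀ y ∈ T, le' (φ x) (φ y) ↔ le x y)
    (hg : ∀ e x, φ (g e x) = g' e (φ x)) {F : Set (Iv K)} (hF : ∀ I ∈ F, I.2.1 ∈ T ∧ I.2.2 ∈ T)
    (hP : ∀ I ∈ pc E g F, I.2.1 ∈ T ∧ I.2.2 ∈ T) {v : ℕ} {m n : K} (hm : m ∈ T) (hn : n ∈ T) :
    YesC le' E g' v (φ m) (φ n) (mp φ '' F) ↔ YesC le E g v m n F := by
  rw [YesC, YesC, pc_map hg, cov_map hT hF hP, hT _ hm _ hn, exists_mem_image]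
  refine and_congr_right fun _ => and_congr_right fun _ => exists_congr fun I =>
    and_congr_right fun hI => ?_
  simp only [mp]
  rw [hT _ (hF I hI).1 _ (hF I hI).2, hT _ (hF I hI).1 _ hn, hT _ hm _ (hF I hI).2]

lemma noC_map (hT : ∀ x y, le' (φ x) (φ y) ↔ le x y) (hg : ∀ e x, φ (g e x) = g' e (φ x))
    {G : Set (ℕ × Iv K)} {v : ℕ} {m n lo hi : K} :
    NoC le' E g' v (φ m) (φ n) (φ lo) (φ hi) (mq φ '' G) ↔ NoC le E g v m n lo hi G := by
  simp only [NoC, Clo, forall_mem_image, exists_mem_image, mq, mp, ← hg, hT]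

end transfer

/-- The action of an edge on real values. -/
def gR (l : ℝ) (e : Edge) (x : ℝ) : ℝ := wt e + l * x

lemma edges_finite (x : Inst) : (edges x).Finite := List.finite_toSet _

lemma yesB_iff_real (x : Inst) (F : List (Iv R3)) : yesB x F = true ↔
    YesC (· ≤ ·) (edges x) (gR (lam x)) x.2.1 (qv x.2.2.2.1) (qv x.2.2.2.2)
      (mp val '' {I | I ∈ F}) := by
  rw [yesB_iff, ← val_cv, ← val_cv]
  exact (yesC_map (T := univ) (fun a _ b _ => leB_iff a b)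
    (fun e y => by rw [val_g3, val_cv]; rfl) (by simp) (by simp) trivial trivial).symm

lemma noB_iff_real (x : Inst) (c : R3 × R3 × List (ℕ × Iv R3)) : noB x c = true ↔
    NoC (· ≤ ·) (edges x) (gR (lam x)) x.2.1 (qv x.2.2.2.1) (qv x.2.2.2.2) (val c.1) (val c.2.1)
      (mq val '' {I | I ∈ c.2.2}) := by
  rw [noB_iff, ← val_cv, ← val_cv]
  exact (noC_map leB_iff (fun e y => by rw [val_g3, val_cv]; rfl)).symm

variable {E : Set Edge} {l : ℝ} {F P : Set (Iv ℝ)} {v : ℕ} {m n : ℝ}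

lemma Cov.sound (h : Cov (· ≤ ·) F P) (hP : P.Finite) {I : Iv ℝ} (hI : I ∈ F) {x : ℝ}
    (hx : x ∈ Icc I.2.1 I.2.2) : ∃ J ∈ P, J.1 = I.1 ∧ x ∈ Icc J.2.1 J.2.2 := by
  obtain ⟨⟨J0, hJ0, h1, h2, h3⟩, h4⟩ := h I hI
  obtain ⟨J, ⟨hJ, h5, h6⟩, hmax⟩ := exists_max_image {J ∈ P | J.1 = I.1 ∧ J.2.1 ≤ x}
    (fun J => J.2.2) (hP.subset fun _ h => h.1) ⟨J0, hJ0, h1, h2.trans hx.1⟩
  refine ⟨J, hJ, h5, h6, ?_⟩
  by_contra hlt
  rw [not_le] at hlt
  obtain ⟨J', hJ', h7, h8, h9⟩ := h4 J hJ h5 (h3.trans (hmax J0 ⟨hJ0, h1, h2.trans hx.1⟩))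
    (not_le.mpr (hlt.trans_le hx.2))
  exact h9 (hmax J' ⟨hJ', h7, h8.trans hlt.le⟩)

lemma cov_of_cover (hP : P.Finite) (hF : ∀ I ∈ F, I.2.1 ≤ I.2.2)
    (h : ∀ I ∈ F, ∀ x ∈ Icc I.2.1 I.2.2, ∃ J ∈ P, J.1 = I.1 ∧ x ∈ Icc J.2.1 J.2.2) :
    Cov (· ≤ ·) F P := by
  intro I hI
  refine ⟨h I hI _ ⟨le_rfl, hF I hI⟩, fun J _ _ h2 h3 => ?_⟩
  rw [not_le] at h3
  obtain ⟨b, ⟨hb, -⟩, hmin⟩ := exists_min_image
    {b | J.2.2 < b ∧ b ∈ insert I.2.2 ((fun J : Iv ℝ => J.2.1) '' P)} id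
    (((hP.image _).insert _).subset fun _ h => h.2) ⟨_, h3, mem_insert _ _⟩
  obtain ⟨x, hx1, hx2⟩ := exists_between hb
  obtain ⟨J', hJ', h4, h5, h6⟩ := h I hI x
    ⟨h2.trans hx1.le, hx2.le.trans (hmin _ ⟨h3, mem_insert _ _⟩)⟩
  refine ⟨J', hJ', h4, ?_, not_le.mpr (hx1.trans_le h6)⟩
  by_contra hlt
  exact absurd (hmin _ ⟨not_le.mp hlt, mem_insert_of_mem _ ⟨J', hJ', rfl⟩⟩)
    (not_le.mpr (h5.trans_lt hx2))

lemma pc_finite {K : Type} {g : Edge → K → K} {F : Set (Iv K)} (hE : E.Finite) (hF : F.Finite) :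
    (pc E g F).Finite :=
  (hE.image2 (fun e I => ((e.1, g e I.2.1, g e I.2.2) : Iv K)) hF).subset
    fun _ ⟨e, he, I, hI, _, h⟩ => ⟨e, he, I, hI, h.symm⟩

lemma YesC.sound (h0 : 0 < l) (h1 : l < 1) (hE : E.Finite) (hF : F.Finite)
    (h : YesC (· ≤ ·) E (gR l) v m n F) : ∃ c, IsPlay E v c ∧ m ≤ disc l c ∧ disc l c ≤ n := by
  obtain ⟨hc, hmn, I, hI, rfl, h2, h3, h4⟩ := h
  obtain ⟨B, hB⟩ := (hF.image fun I => |I.2.1| + |I.2.2|).bddAbove
  obtain ⟨c, hc, hs⟩ := exists_play_of_closed (B := B) h0.le h1 hE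
    (P := {s | ∃ I ∈ F, I.1 = s.1 ∧ s.2 ∈ Icc I.2.1 I.2.2}) (s := (I.1, max I.2.1 m))
    (by
      rintro s ⟨J, hJ, -, h5, h6⟩
      have h7 : |J.2.1| + |J.2.2| ≤ B := hB ⟨J, hJ, rfl⟩
      rw [abs_le]
      constructor <;> linarith [neg_abs_le J.2.1, le_abs_self J.2.2, abs_nonneg J.2.1,
        abs_nonneg J.2.2])
    (by
      rintro s ⟨J, hJ, h5, h6⟩
      obtain ⟨_, ⟨e, he, J', hJ', h7, rfl⟩, h8, h9, h10⟩ := hc.sound (pc_finite hE hF) hJ h6
      simp only [gR] at h9 h10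
      refine ⟨e, he, (J'.1, (s.2 - wt e) / l), ⟨J', hJ', rfl, ?_, ?_⟩, h8.trans h5, h7, ?_⟩
      · rw [le_div_iff₀ h0]
        linarith
      · rw [div_le_iff₀ h0]
        linarith
      · field_simp
        ring)
    ⟨I, hI, rfl, le_max_left _ _, max_le h2 h4⟩
  exact ⟨c, hc, hs ▸ le_max_right _ _, hs ▸ max_le h3 hmn⟩

lemma disc_mem {lo hi : ℝ} (h0 : 0 < l) (h1 : l < 1) (hE : E.Finite)
    (h : ∀ e ∈ E, lo ≤ gR l e lo ∧ gR l e hi ≤ hi) {c : ℕ → Edge} (hc : ∀ k, c k ∈ E) :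
    disc l c ∈ Icc lo hi := by
  obtain ⟨W, hW⟩ := exists_bound hE
  have hs := (summable_bdd h0.le h1 fun k => hW _ (hc k)).hasSum
  have hg : ∀ a : ℝ, HasSum (fun k => a * (1 - l) * l ^ k) a := fun a => by
    have := (hasSum_geometric_of_lt_one h0.le h1).mul_left (a * (1 - l))
    rwa [mul_assoc, mul_inv_cancel₀ (by linarith), mul_one] at this
  refine ⟨hasSum_le (fun k => ?_) (hg lo) hs, hasSum_le (fun k => ?_) hs (hg hi)⟩
  · have := (h _ (hc k)).1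
    exact mul_le_mul_of_nonneg_right (by rw [gR] at this; linarith) (pow_nonneg h0.le k)
  · have := (h _ (hc k)).2
    exact mul_le_mul_of_nonneg_right (by rw [gR] at this; linarith) (pow_nonneg h0.le k)

lemma NoC.sound {lo hi : ℝ} {G : Set (ℕ × Iv ℝ)} (h0 : 0 < l) (h1 : l < 1) (hE : E.Finite)
    (h : NoC (· ≤ ·) E (gR l) v m n lo hi G) :
    ¬ ∃ c, IsPlay E v c ∧ m ≤ disc l c ∧ disc l c ≤ n := by
  obtain ⟨hb, hG, I, hI, rfl, h2, h3⟩ := h
  obtain ⟨W, hW⟩ := exists_bound hE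
  have key : ∀ k, ∀ I ∈ G, I.1 = k → ∀ c, IsPlay E I.2.1 c → disc l c ∉ Icc I.2.2.1 I.2.2.2 := by
    intro k
    induction k using Nat.strong_induction_on with
    | _ k ih =>
      rintro I hI rfl c hc ⟨h4, h5⟩
      obtain ⟨h6, h7⟩ := disc_mem h0 h1 hE hb hc.1
      rcases hG I hI with h | h | h | h
      · exact h (h6.trans h5)
      · exact h (h4.trans h7)
      · exact h (h4.trans h5)
      obtain ⟨J, hJ, h8, h9, h10, h11⟩ := h _ (hc.1 0) hc.2.1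
      have h12 := disc_step h0.le h1 fun k => hW _ (hc.1 k)
      simp only [gR] at h10 h11
      refine ih _ h8 J hJ rfl (sh 1 c) (by rw [h9, hc.2.2]; exact hc.sh 1) ⟨?_, ?_⟩
      · exact le_of_mul_le_mul_left (by linarith) h0
      · exact le_of_mul_le_mul_left (by linarith) h0
  rintro ⟨c, hc, h4, h5⟩
  exact key _ I hI rfl c hc ⟨h2.trans h4, h5.trans h3⟩

/-- Finitely many inequalities with rational coefficients have rational solutions. -/
lemma exists_ratl {T : Set ℝ} (hT : T.Finite) : ∃ χ : ℝ → ℝ, (∀ x, ∃ q : ℚ, χ x = q) ∧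
    (∀ (a b : ℚ) x, χ (a + b * x) = a + b * χ x) ∧ ∀ x ∈ T, ∀ y ∈ T, χ x ≤ χ y ↔ x ≤ y := by
  classical
  let b := Module.Basis.ofVectorSpace ℚ ℝ
  let S : Set ℝ := {z ∈ insert 1 (image2 (· - ·) T T) | 0 < z}
  have hS : S.Finite := ((hT.image2 _ hT).insert _).subset fun _ h => h.1
  let G : ℝ → (_ → ℝ) → ℝ := fun x z => ∑ i ∈ (b.repr x).support, (b.repr x i : ℝ) * z i
  have hU : IsOpen (⋂ x ∈ S, {z | 0 < G x z}) :=
    hS.isOpen_biInter fun x _ => isOpen_lt continuous_const (by fun_prop)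
  have hb : (b : _ → ℝ) ∈ ⋂ x ∈ S, {z | 0 < G x z} := by
    refine mem_iInter₂.mpr fun x hx => ?_
    have : G x b = x := by
      conv_rhs => rw [← b.linearCombination_repr x, Finsupp.linearCombination_apply, Finsupp.sum]
      exact Finset.sum_congr rfl fun i _ => (Rat.smul_def _ _).symm
    simpa [this] using hx.2
  obtain ⟨y, hy⟩ := (DenseRange.piMap fun _ => Rat.denseRange_cast (𝕜 := ℝ)).exists_mem_open hU
    ⟨_, hb⟩
  let ψ : ℝ →ₗ[ℚ] ℚ := b.constr ℚ y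
  have hψ : ∀ x ∈ S, 0 < ψ x := fun x hx => by
    have h1 : 0 < G x (Pi.map (fun _ => Rat.cast) y) := mem_iInter₂.mp hy x hx
    have h2 : (ψ x : ℝ) = G x (Pi.map (fun _ => Rat.cast) y) := by
      simp [ψ, G, Module.Basis.constr_apply, Finsupp.sum]
    rw [← h2] at h1
    exact_mod_cast h1
  have h1 : 0 < ψ 1 := hψ 1 ⟨mem_insert _ _, one_pos⟩
  have hlt : ∀ x ∈ T, ∀ y ∈ T, x < y → ψ x < ψ y := fun x hx y hy h => by
    have := hψ (y - x) ⟨mem_insert_of_mem _ (mem_image2_of_mem hy hx), sub_pos.mpr h⟩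
    rwa [map_sub, sub_pos] at this
  refine ⟨fun x => (ψ x / ψ 1 : ℚ), fun x => ⟨_, rfl⟩, fun a c x => ?_, fun x hx y hy => ?_⟩
  · have h2 : (a : ℝ) + c * x = a • (1 : ℝ) + c • x := by simp [Rat.smul_def]
    have h3 : ψ (a + c * x) / ψ 1 = a + c * (ψ x / ψ 1) := by
      rw [h2, map_add, map_smul, map_smul, smul_eq_mul, smul_eq_mul]
      field_simp
    simp only [h3]
    push_cast
    rfl
  · rw [Rat.cast_le, div_le_div_iff_of_pos_right h1]
    refine ⟨fun h => not_lt.mp fun h' => not_lt.mpr h (hlt y hy x hx h'), fun h => ?_⟩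
    rcases h.eq_or_lt with rfl | h
    exacts [le_rfl, (hlt x hx y hy h).le]

lemma exists_list {α β : Type} (f : α → β) {S : Set β} (hS : S.Finite) (h : S ⊆ range f) :
    ∃ L : List α, f '' {a | a ∈ L} = S := by
  obtain ⟨T, -, hT, e⟩ := (exists_subset_image_finite_and (p := (· = S)) (s := univ)).mp
    ⟨S, by rwa [image_univ], hS, rfl⟩
  exact ⟨hT.toFinset.toList, by simpa using e⟩

lemma yes_complete (x : Inst) {F : Set (Iv ℝ)} (hF : F.Finite)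
    (hne : ∀ I ∈ F, I.2.1 ≤ I.2.2)
    (hc : ∀ I ∈ F, ∀ y ∈ Icc I.2.1 I.2.2, ∃ e ∈ edges x, ∃ J ∈ F, e.1 = I.1 ∧ e.2.1 = J.1 ∧
      y ∈ Icc (wt e + lam x * J.2.1) (wt e + lam x * J.2.2))
    {I : Iv ℝ} (hI : I ∈ F) (hv : I.1 = x.2.1) {y : ℝ} (hy : y ∈ Icc I.2.1 I.2.2)
    (hm : (qv x.2.2.2.1 : ℝ) ≤ y) (hn : y ≤ qv x.2.2.2.2) : ∃ F, yesB x F = true := by
  have hP := pc_finite (g := gR (lam x)) (edges_finite x) hF
  have h1 : YesC (· ≤ ·) (edges x) (gR (lam x)) x.2.1 (qv x.2.2.2.1) (qv x.2.2.2.2) F := by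
    refine ⟨cov_of_cover hP hne fun I hI y hy => ?_, hm.trans hn, I, hI, hv, hne I hI,
      hy.1.trans hn, hm.trans hy.2⟩
    obtain ⟨e, he, J, hJ, h1, h2, h3⟩ := hc I hI y hy
    exact ⟨_, ⟨e, he, J, hJ, h2, rfl⟩, h1, h3⟩
  let T : Set ℝ := ((fun I : Iv ℝ => I.2.1) '' (F ∪ pc (edges x) (gR (lam x)) F) ∪
    (fun I : Iv ℝ => I.2.2) '' (F ∪ pc (edges x) (gR (lam x)) F)) ∪
      {(qv x.2.2.2.1 : ℝ), (qv x.2.2.2.2 : ℝ)}
  obtain ⟨χ, hq, hlin, hT⟩ := exists_ratl (T := T)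
    ((((hF.union hP).image _).union ((hF.union hP).image _)).union (toFinite _))
  have hfix : ∀ a : ℚ, χ a = a := fun a => by simpa using hlin a 0 0
  have h2 := (yesC_map (le' := (· ≤ ·)) (g' := gR (lam x)) hT (fun e y => hlin _ _ y)
    (fun I hI => ⟨.inl (.inl ⟨I, .inl hI, rfl⟩), .inl (.inr ⟨I, .inl hI, rfl⟩)⟩)
    (fun I hI => ⟨.inl (.inl ⟨I, .inr hI, rfl⟩), .inl (.inr ⟨I, .inr hI, rfl⟩)⟩)
    (.inr (by simp)) (.inr (by simp))).mpr h1
  rw [hfix, hfix] at h2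
  obtain ⟨L, hL⟩ := exists_list (mp val) (hF.image (mp χ)) (by
    rintro _ ⟨I, -, rfl⟩
    obtain ⟨a, ha⟩ := hq I.2.1
    obtain ⟨b, hb⟩ := hq I.2.2
    obtain ⟨r, hr⟩ := exists_val a
    obtain ⟨s, hs⟩ := exists_val b
    exact ⟨(I.1, r, s), by simp [mp, ha, hb, hr, hs]⟩)
  exact ⟨L, (yesB_iff_real x L).mpr (hL ▸ h2)⟩

/-- The values that are reachable in `n` steps from the interval `[lo, hi]`. -/
def apx (E : Set Edge) (l lo hi : ℝ) : ℕ → ℕ → Set ℝ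
  | 0, _ => Icc lo hi
  | n + 1, v => ⋃ e ∈ {e ∈ E | e.1 = v}, gR l e '' apx E l lo hi n e.2.1

lemma apx_compact (hE : E.Finite) (lo hi : ℝ) (n v : ℕ) : IsCompact (apx E l lo hi n v) := by
  induction n generalizing v with
  | zero => exact isCompact_Icc
  | succ n ih =>
    exact (hE.subset fun _ h => h.1).isCompact_biUnion fun e _ =>
      (ih _).image (by unfold gR; fun_prop)

lemma apx_succ {lo hi : ℝ} (h0 : 0 < l) (h : ∀ e ∈ E, lo ≤ gR l e lo ∧ gR l e hi ≤ hi) (n v : ℕ) :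
    apx E l lo hi (n + 1) v ⊆ apx E l lo hi n v := by
  induction n generalizing v with
  | zero =>
    refine iUnion₂_subset fun e he => ?_
    rintro _ ⟨y, ⟨h1, h2⟩, rfl⟩
    obtain ⟨h3, h4⟩ := h e he.1
    simp only [gR] at h3 h4 ⊢
    constructor <;> nlinarith
  | succ n ih => exact iUnion₂_mono fun e _ => image_mono (ih _)

lemma exists_clo {l lo hi : ℚ} (h0 : 0 < l) (hE : E.Finite) (hlh : lo ≤ hi) (n v : ℕ) (a b : ℚ)
    (h : ¬ (apx E l lo hi n v ∩ Icc (a : ℝ) b).Nonempty) : ∃ G : Set (ℕ × Iv ℝ), G.Finite ∧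
      G ⊆ range (mq val) ∧ Clo (· ≤ ·) E (gR l) lo hi G ∧ (n, v, (a : ℝ), (b : ℝ)) ∈ G := by
  have hr : ∀ (n v : ℕ) (a b : ℚ), (n, v, (a : ℝ), (b : ℝ)) ∈ range (mq val) := fun n v a b => by
    obtain ⟨r, hr⟩ := exists_val a
    obtain ⟨s, hs⟩ := exists_val b
    exact ⟨(n, v, r, s), by simp [mq, mp, hr, hs]⟩
  have hl : (0 : ℝ) < l := by exact_mod_cast h0
  induction n generalizing v a b with
  | zero =>
    refine ⟨{(0, v, (a : ℝ), (b : ℝ))}, finite_singleton _, singleton_subset_iff.mpr (hr ..), ?_, rfl⟩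
    rintro _ rfl
    by_contra hn
    simp only [not_or, not_not] at hn
    exact h ⟨max (lo : ℝ) a, ⟨le_max_left _ _, max_le (by exact_mod_cast hlh) hn.2.1⟩,
      le_max_right _ _, max_le hn.1 hn.2.2.1⟩
  | succ n ih =>
    have key : ∀ e ∈ {e ∈ E | e.1 = v}, _ := fun e he =>
      ih e.2.1 ((a - qv e.2.2) / l) ((b - qv e.2.2) / l) fun ⟨y, h1, h2, h3⟩ => by
        push_cast at h2 h3
        rw [div_le_iff₀ hl] at h2
        rw [le_div_iff₀ hl] at h3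
        refine h ⟨gR l e y, mem_iUnion₂.mpr ⟨e, he, y, h1, rfl⟩, ?_, ?_⟩ <;> simp only [gR, wt] <;>
          linarith
    choose! G h1 h2 h3 h4 using key
    refine ⟨insert (n + 1, v, (a : ℝ), (b : ℝ)) (⋃ e ∈ {e ∈ E | e.1 = v}, G e),
      ((hE.subset fun _ h => h.1).biUnion h1).insert _,
      insert_subset (hr ..) (iUnion₂_subset h2), ?_, mem_insert _ _⟩
    rintro I (rfl | hI)
    · refine .inr (.inr (.inr fun e he hv => ⟨_, mem_insert_of_mem _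
        (mem_iUnion₂.mpr ⟨e, ⟨he, hv⟩, h4 e ⟨he, hv⟩⟩), Nat.lt_succ_self n, rfl, ?_, ?_⟩))
      all_goals
        simp only [gR, wt]
        push_cast
        rw [mul_div_cancel₀ _ hl.ne']
        linarith
    · obtain ⟨e, he, hI⟩ := mem_iUnion₂.mp hI
      refine (h3 e he I hI).imp_right (Or.imp_right (Or.imp_right fun h5 e' he' hv => ?_))
      obtain ⟨J, hJ, h6⟩ := h5 e' he' hv
      exact ⟨J, mem_insert_of_mem _ (mem_iUnion₂.mpr ⟨e, he, hJ⟩), h6⟩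

lemma no_complete (x : Inst) (h0 : 0 < lam x) (h1 : lam x < 1) (h : ¬ Yes x) :
    ∃ c, noB x c = true := by
  have hE := edges_finite x
  have hl0 : (0 : ℝ) < lam x := by exact_mod_cast h0
  have hl1 : (lam x : ℝ) < 1 := by exact_mod_cast h1
  obtain ⟨W, hW⟩ := exists_bound hE
  obtain ⟨C, hC⟩ := exists_nat_gt (W / (1 - lam x))
  rw [div_lt_iff₀ (by linarith)] at hC
  have hb : ∀ e ∈ edges x, ((-C : ℚ) : ℝ) ≤ gR (lam x) e (-C : ℚ) ∧
      gR (lam x) e (C : ℚ) ≤ (C : ℚ) := fun e he => by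
    have := abs_le.mp (hW e he)
    simp only [gR]
    push_cast
    constructor <;> linarith
  have hanti : ∀ v, Antitone fun n => apx (edges x) (lam x) (-C : ℚ) (C : ℚ) n v := fun v =>
    antitone_nat_of_succ_le fun n => apx_succ hl0 hb n v
  have hex : ∃ n, ¬ (apx (edges x) (lam x) (-C : ℚ) (C : ℚ) n x.2.1 ∩
      Icc (qv x.2.2.2.1 : ℝ) (qv x.2.2.2.2)).Nonempty := by
    by_contra hn
    simp only [not_exists, not_not] at hn
    obtain ⟨y, hy⟩ := IsCompact.nonempty_iInter_of_sequence_nonempty_isCompact_isClosed _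
      (fun n => inter_subset_inter_left _ (apx_succ hl0 hb n _)) hn
      ((apx_compact hE _ _ 0 _).inter_right isClosed_Icc)
      fun n => (apx_compact hE _ _ n _).isClosed.inter isClosed_Icc
    rw [mem_iInter] at hy
    obtain ⟨c, hc, hs⟩ := exists_play_of_closed (B := C) hl0.le hl1 hE
      (P := {s | ∀ n, s.2 ∈ apx (edges x) (lam x) (-C : ℚ) (C : ℚ) n s.1}) (s := (x.2.1, y))
      (fun s hs => abs_le.mpr (by simpa [apx] using hs 0))
      (by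
        intro s hs
        by_contra hn
        have h2 : ∀ e ∈ edges x, e.1 = s.1 → ∃ n, (s.2 - wt e) / lam x ∉
            apx (edges x) (lam x) (-C : ℚ) (C : ℚ) n e.2.1 := by
          intro e he hv
          by_contra h3
          simp only [not_exists, not_not] at h3
          exact hn ⟨e, he, (e.2.1, (s.2 - wt e) / lam x), h3, hv, rfl, by field_simp; ring⟩
        choose! N hN using h2
        obtain ⟨n, hn⟩ := (hE.image N).bddAbove
        obtain ⟨e, he, z, hz, h3⟩ := mem_iUnion₂.mp (hs (n + 1))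
        refine hN e he.1 he.2 (hanti _ (hn ⟨e, he.1, rfl⟩) ?_)
        have : (s.2 - wt e) / lam x = z := by
          rw [← h3, gR]
          field_simp
          ring
        rwa [this])
      fun n => (hy n).1
    exact h ⟨c, hc, hs ▸ (hy 0).2.1, hs ▸ (hy 0).2.2⟩
  obtain ⟨n, hn⟩ := hex
  obtain ⟨G, hG, hr, hclo, hm⟩ := exists_clo h0 hE (by simp) n _ _ _ hn
  obtain ⟨L, hL⟩ := exists_list _ hG hr
  obtain ⟨r, hr⟩ := exists_val (-C)
  obtain ⟨s, hs⟩ := exists_val C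
  refine ⟨(r, s, L), (noB_iff_real x _).mpr ?_⟩
  simp only [hr, hs, hL]
  exact ⟨hb, hclo, _, hm, rfl, le_rfl, le_rfl⟩

/-- It suffices to find real families for the positive instances of the class. -/
theorem decidableOn_of_yes (C : Inst → Prop)
    (h : ∀ x, 0 < lam x → lam x < 1 → C x → Yes x → ∃ F, yesB x F = true) : DecidableOn C :=
  decidableOn_of_cert C
    (fun x F h0 h1 hF => ((yesB_iff_real x F).mp hF).sound (by exact_mod_cast h0)
      (by exact_mod_cast h1) (edges_finite x) ((List.finite_toSet F).image _))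
    (fun x c h0 h1 hc => ((noB_iff_real x c).mp hc).sound (by exact_mod_cast h0)
      (by exact_mod_cast h1) (edges_finite x)) h no_complete

end Pool.Agent.P.MP_926cae_lc
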