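import Pool.Agent.P.MP_926cae_lc.Defs
import Pool.Agent.P.MP_d6faff_lc.FunProp

/-! Finite certificates for both answers, and their primitive recursive tests. -/

namespace Pool.Agent.P.MP_926cae_lc

open Pool.Agent.P.MP_d6faff_lc

/-- A vertex with an interval. -/
abbrev Iv (K : Type) : Type := ℕ × K × K

section abstr

variable {K : Type} (le : K → K → Prop) (E : Set Edge) (g : Edge → K → K)

/-- The images of the intervals along the edges. -/
def pc (F : Set (Iv K)) : Set (Iv K) :=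
  {J | ∃ e ∈ E, ∃ I ∈ F, e.2.1 = I.1 ∧ J = (e.1, g e I.2.1, g e I.2.2)}

/-- The test that the intervals of `P` cover those of `F`. -/
def Cov (F P : Set (Iv K)) : Prop := ∀ I ∈ F,
  (∃ J ∈ P, J.1 = I.1 ∧ le J.2.1 I.2.1 ∧ le I.2.1 J.2.2) ∧
    ∀ J ∈ P, J.1 = I.1 → le I.2.1 J.2.2 → ¬ le I.2.2 J.2.2 →
      ∃ J' ∈ P, J'.1 = I.1 ∧ le J'.2.1 J.2.2 ∧ ¬ le J'.2.2 J.2.2

/-- A certificate for the positive answer. -/
def YesC (v : ℕ) (m n : K) (F : Set (Iv K)) : Prop :=
  Cov le F (pc E g F) ∧ le m n ∧ ∃ I ∈ F, I.1 = v ∧ le I.2.1 I.2.2 ∧ le I.2.1 n ∧ le m I.2.2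

/-- Closed families of ranked intervals that no play reaches. -/
def Clo (lo hi : K) (G : Set (ℕ × Iv K)) : Prop := ∀ I ∈ G,
  ¬ le lo I.2.2.2 ∨ ¬ le I.2.2.1 hi ∨ ¬ le I.2.2.1 I.2.2.2 ∨ ∀ e ∈ E, e.1 = I.2.1 →
    ∃ J ∈ G, J.1 < I.1 ∧ J.2.1 = e.2.1 ∧ le (g e J.2.2.1) I.2.2.1 ∧ le I.2.2.2 (g e J.2.2.2)

/-- A certificate for the negative answer. -/
def NoC (v : ℕ) (m n lo hi : K) (G : Set (ℕ × Iv K)) : Prop :=
  (∀ e ∈ E, le lo (g e lo) ∧ le (g e hi) hi) ∧ Clo le E g lo hi G ∧
    ∃ I ∈ G, I.2.1 = v ∧ le I.2.2.1 m ∧ le n I.2.2.2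

end abstr

/-- Codes of rational numbers. -/
abbrev R3 : Type := ℕ × ℕ × ℕ

/-- The value of a code. -/
noncomputable def val (r : R3) : ℝ := ((r.1 : ℝ) - r.2.1) / (r.2.2 + 1)

def ad (r s : R3) : R3 := (r.1 * (s.2.2 + 1) + s.1 * (r.2.2 + 1),
  r.2.1 * (s.2.2 + 1) + s.2.1 * (r.2.2 + 1), r.2.2 * s.2.2 + r.2.2 + s.2.2)

def ml (r s : R3) : R3 := (r.1 * s.1 + r.2.1 * s.2.1, r.1 * s.2.1 + r.2.1 * s.1,
  r.2.2 * s.2.2 + r.2.2 + s.2.2)

def leB (r s : R3) : Bool :=
  decide (r.1 * (s.2.2 + 1) + s.2.1 * (r.2.2 + 1) ≤ s.1 * (r.2.2 + 1) + r.2.1 * (s.2.2 + 1))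

def posP (z : ℤ) : ℕ := z.toNat

def negP (z : ℤ) : ℕ := (-z).toNat

def cv (r : ℤ × ℕ) : R3 := bif decide (r.2 = 0) then (0, 0, 0) else (posP r.1, negP r.1, r.2 - 1)

def g3 (l : R3) (e : Edge) (x : R3) : R3 := ad (cv e.2.2) (ml l x)

lemma val_ad (r s : R3) : val (ad r s) = val r + val s := by
  have h : ((r.2.2 : ℝ) * s.2.2 + r.2.2 + s.2.2 + 1) = (r.2.2 + 1) * (s.2.2 + 1) := by ring
  simp only [val, ad]
  push_cast
  rw [h]
  field_simp
  ring

lemma val_ml (r s : R3) : val (ml r s) = val r * val s := by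
  have h : ((r.2.2 : ℝ) * s.2.2 + r.2.2 + s.2.2 + 1) = (r.2.2 + 1) * (s.2.2 + 1) := by ring
  simp only [val, ml]
  push_cast
  rw [h]
  field_simp
  ring

lemma leB_iff (r s : R3) : val r ≤ val s ↔ leB r s = true := by
  rw [leB, decide_eq_true_iff, val, val, div_le_div_iff₀ (by positivity) (by positivity),
    ← Nat.cast_le (α := ℝ)]
  push_cast
  constructor <;> intro h <;> linarith

lemma val_cv (r : ℤ × ℕ) : val (cv r) = qv r := by
  obtain ⟨z, _ | d⟩ := r
  · simp [val, cv, qv]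
  · have h : ((posP z : ℕ) : ℝ) - (negP z : ℕ) = z := by
      have : ((posP z : ℕ) : ℤ) - (negP z : ℕ) = z := Int.toNat_sub_toNat_neg z
      exact_mod_cast this
    simp [val, cv, qv, h]

lemma val_g3 (l : R3) (e : Edge) (x : R3) : val (g3 l e x) = qv e.2.2 + val l * val x := by
  rw [g3, val_ad, val_ml, val_cv]

lemma exists_val (q : ℚ) : ∃ r, val r = q :=
  ⟨cv (q.num, q.den), by rw [val_cv, qv, Rat.num_div_den]⟩

def pcL (E : List Edge) (l : R3) (F : List (Iv R3)) : List (Iv R3) :=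
  E.flatMap fun e => F.flatMap fun I =>
    bif decide (e.2.1 = I.1) then [(e.1, g3 l e I.2.1, g3 l e I.2.2)] else []

def covB (F P : List (Iv R3)) : Bool := F.all fun I =>
  (P.any fun J => decide (J.1 = I.1) && (leB J.2.1 I.2.1 && leB I.2.1 J.2.2)) &&
    P.all fun J => !decide (J.1 = I.1) || (!leB I.2.1 J.2.2 || (leB I.2.2 J.2.2 ||
      P.any fun J' => decide (J'.1 = I.1) && (leB J'.2.1 J.2.2 && !leB J'.2.2 J.2.2)))

def yesB (x : Inst) (F : List (Iv R3)) : Bool :=
  covB F (pcL x.1 (cv x.2.2.1) F) && (leB (cv x.2.2.2.1) (cv x.2.2.2.2) &&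
    F.any fun I => decide (I.1 = x.2.1) && (leB I.2.1 I.2.2 && (leB I.2.1 (cv x.2.2.2.2) &&
      leB (cv x.2.2.2.1) I.2.2)))

def cloB (E : List Edge) (l lo hi : R3) (G : List (ℕ × Iv R3)) : Bool := G.all fun I =>
  !leB lo I.2.2.2 || (!leB I.2.2.1 hi || (!leB I.2.2.1 I.2.2.2 || E.all fun e =>
    !decide (e.1 = I.2.1) || G.any fun J => decide (J.1 < I.1) && (decide (J.2.1 = e.2.1) &&
      (leB (g3 l e J.2.2.1) I.2.2.1 && leB I.2.2.2 (g3 l e J.2.2.2)))))

def noB (x : Inst) (c : R3 × R3 × List (ℕ × Iv R3)) : Bool :=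
  (x.1.all fun e => leB c.1 (g3 (cv x.2.2.1) e c.1) && leB (g3 (cv x.2.2.1) e c.2.1) c.2.1) &&
    (cloB x.1 (cv x.2.2.1) c.1 c.2.1 c.2.2 && c.2.2.any fun I => decide (I.2.1 = x.2.1) &&
      (leB I.2.2.1 (cv x.2.2.2.1) && leB (cv x.2.2.2.2) I.2.2.2))

/-- The order on codes. -/
def le3 (r s : R3) : Prop := leB r s = true

lemma pcL_eq (E : List Edge) (l : R3) (F : List (Iv R3)) :
    {J | J ∈ pcL E l F} = pc {e | e ∈ E} (g3 l) {I | I ∈ F} := by
  ext J
  simp only [pcL, pc, List.mem_flatMap, Set.mem_ofPred_eq]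
  refine exists_congr fun e => and_congr_right fun _ => exists_congr fun I =>
    and_congr_right fun _ => ?_
  by_cases h : e.2.1 = I.1 <;> simp [h]

lemma covB_iff (F P : List (Iv R3)) : covB F P = true ↔ Cov le3 {I | I ∈ F} {J | J ∈ P} := by
  simp only [covB, Cov, le3, List.all_eq_true, List.any_eq_true, Bool.and_eq_true,
    Bool.or_eq_true, Bool.not_eq_true', decide_eq_true_eq,
    Set.mem_ofPred_eq, ← Bool.not_eq_true, imp_iff_not_or, not_not]

lemma yesB_iff (x : Inst) (F : List (Iv R3)) : yesB x F = true ↔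
    YesC le3 (edges x) (g3 (cv x.2.2.1)) x.2.1 (cv x.2.2.2.1) (cv x.2.2.2.2) {I | I ∈ F} := by
  simp only [yesB, YesC, Bool.and_eq_true, covB_iff, pcL_eq, edges, le3, List.any_eq_true,
    decide_eq_true_eq, Set.mem_ofPred_eq]

lemma noB_iff (x : Inst) (c : R3 × R3 × List (ℕ × Iv R3)) : noB x c = true ↔
    NoC le3 (edges x) (g3 (cv x.2.2.1)) x.2.1 (cv x.2.2.2.1) (cv x.2.2.2.2) c.1 c.2.1
      {I | I ∈ c.2.2} := by
  simp only [noB, cloB, NoC, Clo, edges, le3, List.all_eq_true, List.any_eq_true,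
    Bool.and_eq_true, Bool.or_eq_true, Bool.not_eq_true', decide_eq_true_eq,
    Set.mem_ofPred_eq, ← Bool.not_eq_true, imp_iff_not_or]

variable {α β σ : Type} [Primcodable α] [Primcodable β] [Primcodable σ]

@[fun_prop] theorem p_mul {f g : α → ℕ} (hf : Primrec f) (hg : Primrec g) :
    Primrec (fun a => f a * g a) := Primrec.nat_mul.comp hf hg

@[fun_prop] theorem p_any {f : α → List β} {p : α → β → Bool} (hf : Primrec f)
    (hp : Primrec fun x : α × β => p x.1 x.2) : Primrec fun a => (f a).any (p a) := by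
  have h1 : PrimrecRel fun (b : β) (a : α) => p a b = true :=
    Primrec.eq.comp (hp.comp (Primrec.snd.pair Primrec.fst)) (Primrec.const true)
  exact ((PrimrecRel.exists_mem_list h1).comp hf Primrec.id).decide.of_eq fun a => by
    rw [Bool.eq_iff_iff]
    simp

@[fun_prop] theorem p_all {f : α → List β} {p : α → β → Bool} (hf : Primrec f)
    (hp : Primrec fun x : α × β => p x.1 x.2) : Primrec fun a => (f a).all (p a) := by
  have h1 : PrimrecRel fun (b : β) (a : α) => p a b = true :=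
    Primrec.eq.comp (hp.comp (Primrec.snd.pair Primrec.fst)) (Primrec.const true)
  exact ((PrimrecRel.forall_mem_list h1).comp hf Primrec.id).decide.of_eq fun a => by
    rw [Bool.eq_iff_iff]
    simp

@[fun_prop] theorem p_flatMap {f : α → List β} {g : α → β → List σ} (hf : Primrec f)
    (hg : Primrec fun x : α × β => g x.1 x.2) : Primrec fun a => (f a).flatMap (g a) :=
  Primrec.list_flatMap hf hg

@[fun_prop] theorem p_posP : Primrec posP := by
  have : Primrec fun z : ℤ => bif decide (Encodable.encode z % 2 = 0) then Encodable.encode z / 2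
      else 0 := by fun_prop
  refine this.of_eq fun z => ?_
  rcases z with n | n
  · have h : Encodable.encode (Int.ofNat n) = 2 * n := by
      change Nat.bit false n = _
      simp [Nat.bit]
    rw [h]
    simp [posP]
  · have h : Encodable.encode (Int.negSucc n) = 2 * n + 1 := by
      change Nat.bit true n = _
      simp [Nat.bit]
    rw [h]
    simp [posP]

@[fun_prop] theorem p_negP : Primrec negP := by
  have : Primrec fun z : ℤ => bif decide (Encodable.encode z % 2 = 0) then 0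
      else Encodable.encode z / 2 + 1 := by fun_prop
  refine this.of_eq fun z => ?_
  rcases z with n | n
  · have h : Encodable.encode (Int.ofNat n) = 2 * n := by
      change Nat.bit false n = _
      simp [Nat.bit]
    rw [h]
    simp [negP]
  · have h : Encodable.encode (Int.negSucc n) = 2 * n + 1 := by
      change Nat.bit true n = _
      simp [Nat.bit]
    rw [h]
    simp [negP]
    omega

@[fun_prop] theorem p_cv : Primrec cv := by
  unfold cv
  fun_prop

@[fun_prop] theorem p_ad {f g : α → R3} (hf : Primrec f) (hg : Primrec g) :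
    Primrec fun a => ad (f a) (g a) := by
  unfold ad
  fun_prop

@[fun_prop] theorem p_ml {f g : α → R3} (hf : Primrec f) (hg : Primrec g) :
    Primrec fun a => ml (f a) (g a) := by
  unfold ml
  fun_prop

@[fun_prop] theorem p_leB {f g : α → R3} (hf : Primrec f) (hg : Primrec g) :
    Primrec fun a => leB (f a) (g a) := by
  unfold leB
  fun_prop

@[fun_prop] theorem p_g3 {f : α → R3} {g : α → Edge} {h : α → R3} (hf : Primrec f)
    (hg : Primrec g) (hh : Primrec h) : Primrec fun a => g3 (f a) (g a) (h a) := by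
  unfold g3
  fun_prop

@[fun_prop] theorem p_pcL {f : α → List Edge} {g : α → R3} {h : α → List (Iv R3)} (hf : Primrec f)
    (hg : Primrec g) (hh : Primrec h) : Primrec fun a => pcL (f a) (g a) (h a) := by
  unfold pcL
  fun_prop

@[fun_prop] theorem p_covB {f g : α → List (Iv R3)} (hf : Primrec f) (hg : Primrec g) :
    Primrec fun a => covB (f a) (g a) := by
  unfold covB
  fun_prop

@[fun_prop] theorem p_cloB {f : α → List Edge} {g lo hi : α → R3} {h : α → List (ℕ × Iv R3)}
    (hf : Primrec f) (hg : Primrec g) (h1 : Primrec lo) (h2 : Primrec hi) (hh : Primrec h) :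
    Primrec fun a => cloB (f a) (g a) (lo a) (hi a) (h a) := by
  unfold cloB
  fun_prop

@[fun_prop] theorem p_yesB {f : α → Inst} {g : α → List (Iv R3)} (hf : Primrec f)
    (hg : Primrec g) : Primrec fun a => yesB (f a) (g a) := by
  unfold yesB
  fun_prop

@[fun_prop] theorem p_noB {f : α → Inst} {g : α → R3 × R3 × List (ℕ × Iv R3)} (hf : Primrec f)
    (hg : Primrec g) : Primrec fun a => noB (f a) (g a) := by
  unfold noB
  fun_prop

/-- The search for a certificate. -/
theorem decidableOn_of_cert (C : Inst → Prop)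
    (hy : ∀ x F, 0 < lam x → lam x < 1 → yesB x F = true → Yes x)
    (hn : ∀ x c, 0 < lam x → lam x < 1 → noB x c = true → ¬ Yes x)
    (hy' : ∀ x, 0 < lam x → lam x < 1 → C x → Yes x → ∃ F, yesB x F = true)
    (hn' : ∀ x, 0 < lam x → lam x < 1 → ¬ Yes x → ∃ c, noB x c = true) : DecidableOn C := by
  let t : Inst → List (Iv R3) × R3 × R3 × List (ℕ × Iv R3) → Option Bool := fun x c =>
    bif yesB x c.1 then some true else bif noB x c.2 then some false else none
  have ht : Primrec₂ t := by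
    unfold Primrec₂
    fun_prop
  let s : Inst → ℕ → Option Bool := fun x n => (Encodable.decode n).bind (t x)
  have hs : Primrec₂ s :=
    Primrec.option_bind (Primrec.decode.comp Primrec.snd) (ht.comp (Primrec.fst.comp Primrec.fst)
      Primrec.snd)
  refine ⟨fun x => Nat.rfindOpt (s x), Partrec.rfindOpt hs.to_comp, fun x h0 h1 hC => ?_⟩
  have hdom : (Nat.rfindOpt (s x)).Dom := by
    rw [Nat.rfindOpt_dom]
    by_cases hx : Yes x
    · obtain ⟨F, hF⟩ := hy' x h0 h1 hC hx
      refine ⟨Encodable.encode ((F, ((0, 0, 0), (0, 0, 0), [])) :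
        List (Iv R3) × R3 × R3 × List (ℕ × Iv R3)), true, ?_⟩
      simp only [s, Encodable.encodek, Option.bind_some, t, hF, cond_true, Option.mem_def]
    · obtain ⟨c, hc⟩ := hn' x h0 h1 hx
      refine ⟨Encodable.encode (([], c) : List (Iv R3) × R3 × R3 × List (ℕ × Iv R3)),
        yesB x [], ?_⟩
      simp only [s, Encodable.encodek, Option.bind_some, t, hc, cond_true, Option.mem_def]
      cases yesB x [] <;> rfl
  refine ⟨_, Part.get_mem hdom, ?_⟩
  obtain ⟨n, hn1⟩ := Nat.rfindOpt_spec (Part.get_mem hdom)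
  obtain ⟨c, -, hc⟩ := Option.mem_bind_iff.mp hn1
  simp only [t, Option.mem_def] at hc
  cases h2 : yesB x c.1
  · cases h3 : noB x c.2
    · simp [h2, h3] at hc
    · simp only [h2, h3, cond_false, cond_true, Option.some.injEq] at hc
      simp [← hc, hn x _ h0 h1 h3]
  · simp only [h2, cond_true, Option.some.injEq] at hc
    simp [← hc, hy x _ h0 h1 h2]

end Pool.Agent.P.MP_926cae_lc
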