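import Mathlib

/-! A second moment bound for the number of points of a box that a family of linear forms
separates. -/

namespace Pool.Agent.P.MP_926cae_lc

open Finset

lemma sum_Icc_le (σ : ℝ) (hσ : 1 ≤ σ) (B : ℕ) :
    ∑ z ∈ Icc (-(B : ℤ)) B, σ ^ 2 / (σ ^ 2 + (z : ℝ) ^ 2) ≤ 1 + 4 * σ - 4 * σ ^ 2 / (σ + B) := by
  induction B with
  | zero =>
    have : σ ≠ 0 := by positivity
    simp only [Nat.cast_zero, neg_zero, Icc_self, sum_singleton, Int.cast_zero, add_zero]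
    field_simp
    ring_nf
    rfl
  | succ B ih =>
    have e : Icc (-((B + 1 : ℕ) : ℤ)) ((B + 1 : ℕ) : ℤ)
        = insert (-((B : ℤ) + 1)) (insert ((B : ℤ) + 1) (Icc (-(B : ℤ)) B)) := by
      ext z
      simp only [mem_Icc, mem_insert]
      omega
    rw [e, sum_insert (by simp only [mem_Icc, mem_insert]; omega),
      sum_insert (by simp only [mem_Icc]; omega)]
    have hB : (0 : ℝ) ≤ B := Nat.cast_nonneg B
    have h1 : σ ^ 2 / (σ ^ 2 + ((B : ℝ) + 1) ^ 2)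
        ≤ 2 * σ ^ 2 / (σ + B) - 2 * σ ^ 2 / (σ + (B + 1)) := by
      rw [div_sub_div _ _ (by positivity) (by positivity), div_le_div_iff₀ (by positivity)
        (by positivity)]
      have h2 : (σ + B) * (σ + (B + 1)) ≤ 2 * (σ ^ 2 + ((B : ℝ) + 1) ^ 2) := by
        nlinarith [sq_nonneg (σ - (B + 1))]
      have h3 : 0 ≤ σ ^ 2 := sq_nonneg σ
      nlinarith [mul_le_mul_of_nonneg_left h2 h3]
    push_cast
    rw [neg_sq]
    have e1 : 4 * σ ^ 2 / (σ + B) = 2 * (2 * σ ^ 2 / (σ + B)) := by ring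
    have e2 : 4 * σ ^ 2 / (σ + (B + 1)) = 2 * (2 * σ ^ 2 / (σ + (B + 1))) := by ring
    linarith

lemma sum_exp_le (σ : ℝ) (hσ : 1 ≤ σ) (B : ℕ) :
    ∑ z ∈ Icc (-(B : ℤ)) B, Real.exp (-((z : ℝ) ^ 2 / σ ^ 2)) ≤ 5 * σ := by
  have h1 : ∀ z : ℤ, Real.exp (-((z : ℝ) ^ 2 / σ ^ 2)) ≤ σ ^ 2 / (σ ^ 2 + (z : ℝ) ^ 2) := by
    intro z
    have h2 := Real.add_one_le_exp ((z : ℝ) ^ 2 / σ ^ 2)
    have h3 : σ ^ 2 / (σ ^ 2 + (z : ℝ) ^ 2) = ((z : ℝ) ^ 2 / σ ^ 2 + 1)⁻¹ := by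
      field_simp
      ring
    rw [Real.exp_neg, h3]
    exact inv_anti₀ (by positivity) h2
  have h4 : 0 ≤ 4 * σ ^ 2 / (σ + B) := by positivity
  linarith [sum_le_sum fun z (_ : z ∈ Icc (-(B : ℤ)) B) => h1 z, sum_Icc_le σ hσ B]

/-- Points of the lattice with small mean square norm are few. -/
lemma card_le_of_moment {Ω : Type} [Fintype Ω] {L : ℕ} (T : Ω → Fin L → ℤ)
    (hT : Function.Injective T) (σ : ℝ) (hσ : 1 ≤ σ)
    (h : ∀ j, ∑ c, ((T c j : ℤ) : ℝ) ^ 2 ≤ Fintype.card Ω * σ ^ 2) :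
    (Fintype.card Ω : ℝ) ≤ (15 * σ) ^ L := by
  classical
  obtain ⟨B, hB⟩ : ∃ B : ℕ, ∀ c j, T c j ∈ Icc (-(B : ℤ)) B := by
    refine ⟨univ.sup fun p : Ω × Fin L => (T p.1 p.2).natAbs, fun c j => ?_⟩
    have := le_sup (f := fun p : Ω × Fin L => (T p.1 p.2).natAbs) (mem_univ (c, j))
    rw [mem_Icc]
    simp only at this
    omega
  have hs : 0 < σ ^ 2 := by positivity
  let f : ℤ → ℝ := fun z => Real.exp (-((z : ℝ) ^ 2 / σ ^ 2))
  have up : ∑ c, ∏ j, f (T c j) ≤ (5 * σ) ^ L := by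
    calc ∑ c, ∏ j, f (T c j) = ∑ z ∈ univ.image T, ∏ j, f (z j) := by
          rw [sum_image fun a _ b _ hab => hT hab]
      _ ≤ ∑ z ∈ Fintype.piFinset fun _ : Fin L => Icc (-(B : ℤ)) B, ∏ j, f (z j) := by
          refine sum_le_sum_of_subset_of_nonneg ?_ fun z _ _ => prod_nonneg fun j _ =>
            (Real.exp_pos _).le
          intro z hz
          obtain ⟨c, -, rfl⟩ := mem_image.mp hz
          exact Fintype.mem_piFinset.mpr (hB c)
      _ = ∏ _j : Fin L, ∑ z ∈ Icc (-(B : ℤ)) B, f z := (prod_univ_sum _ fun _ => f).symm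
      _ ≤ ∏ _j : Fin L, 5 * σ := prod_le_prod (fun _ _ => sum_nonneg fun _ _ =>
          (Real.exp_pos _).le) fun _ _ => sum_exp_le σ hσ B
      _ = (5 * σ) ^ L := by simp
  have low : ∀ c, Real.exp (-L) * (1 + L - ∑ j, ((T c j : ℤ) : ℝ) ^ 2 / σ ^ 2)
      ≤ ∏ j, f (T c j) := by
    intro c
    rw [← Real.exp_sum, sum_neg_distrib]
    have h1 := Real.add_one_le_exp (L - ∑ j, ((T c j : ℤ) : ℝ) ^ 2 / σ ^ 2)
    calc _ ≤ Real.exp (-L) * Real.exp (L - ∑ j, ((T c j : ℤ) : ℝ) ^ 2 / σ ^ 2) :=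
          mul_le_mul_of_nonneg_left (by linarith) (Real.exp_pos _).le
      _ = _ := by rw [← Real.exp_add]; congr 1; ring
  have tot : ∑ c, ∑ j, ((T c j : ℤ) : ℝ) ^ 2 / σ ^ 2 ≤ Fintype.card Ω * L := by
    rw [sum_comm]
    calc _ ≤ ∑ _j : Fin L, (Fintype.card Ω : ℝ) := sum_le_sum fun j _ => by
          rw [← sum_div, div_le_iff₀ hs]
          exact h j
      _ = _ := by simp [mul_comm]
  have h5 : Real.exp (-L) * Fintype.card Ω ≤ (5 * σ) ^ L := by
    refine le_trans ?_ ((sum_le_sum fun c _ => low c).trans up)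
    rw [← mul_sum, sum_sub_distrib]
    refine mul_le_mul_of_nonneg_left ?_ (Real.exp_pos _).le
    simp only [sum_const, card_univ, nsmul_eq_mul]
    linarith
  have h6 : Real.exp L ≤ 3 ^ L := by
    rw [← mul_one (L : ℝ), Real.exp_nat_mul]
    exact pow_le_pow_left₀ (Real.exp_pos _).le (Real.exp_one_lt_d9.le.trans (by norm_num)) L
  rw [Real.exp_neg, inv_mul_le_iff₀ (Real.exp_pos _)] at h5
  calc _ ≤ Real.exp L * (5 * σ) ^ L := h5
    _ ≤ 3 ^ L * (5 * σ) ^ L := mul_le_mul_of_nonneg_right h6 (by positivity)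
    _ = (15 * σ) ^ L := by rw [← mul_pow]; congr 1; ring

/-- The second moment of a centred linear form on a box. -/
lemma moment_le {r : ℕ} (h : Fin r → ℕ) (p M : ℕ) (hp : ∀ i, h i ≤ p) (u : Fin r → ℕ)
    (hu : ∀ i, u i ≤ M) :
    ∑ c : (i : Fin r) → Fin (h i), ((∑ i, (2 * (c i : ℤ) + 1 - h i) * u i : ℤ) : ℝ) ^ 2
      ≤ Fintype.card ((i : Fin r) → Fin (h i)) * (r * p ^ 2 * M ^ 2) := by
  classical
  let ξ : ((i : Fin r) → Fin (h i)) → Fin r → ℝ := fun c i => (2 * ((c i : ℕ) : ℝ) + 1 - h i) * u i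
  have cross : ∀ i k, i ≠ k → ∑ c, ξ c i * ξ c k = 0 := by
    intro i k hik
    let e : ((i : Fin r) → Fin (h i)) ≃ ((i : Fin r) → Fin (h i)) :=
      Equiv.piCongrRight fun m => if m = i then Fin.revPerm else Equiv.refl _
    have h1 : ∀ c, ξ (e c) i * ξ (e c) k = -(ξ c i * ξ c k) := by
      intro c
      have h2 : ((e c i : ℕ) : ℝ) = h i - (c i + 1) := by
        have h3 : (e c i : ℕ) = h i - (c i + 1) := by simp [e, Fin.val_rev]
        rw [h3, Nat.cast_sub (c i).isLt]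
        push_cast
        rfl
      have h4 : e c k = c k := by simp [e, hik.symm]
      simp only [ξ, h2, h4]
      ring
    have h5 := e.sum_comp fun c => ξ c i * ξ c k
    simp only [h1, sum_neg_distrib] at h5
    linarith
  have diag : ∀ c i, ξ c i * ξ c i ≤ p ^ 2 * M ^ 2 := by
    intro c i
    have h1 : ((c i : ℕ) : ℝ) + 1 ≤ h i := by exact_mod_cast (c i).isLt
    have h2 : (h i : ℝ) ≤ p := by exact_mod_cast hp i
    have h3 : (u i : ℝ) ≤ M := by exact_mod_cast hu i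
    have h4 : (0 : ℝ) ≤ (c i : ℕ) := Nat.cast_nonneg _
    have h5 : (2 * ((c i : ℕ) : ℝ) + 1 - h i) ^ 2 ≤ p ^ 2 := sq_le_sq' (by linarith) (by linarith)
    have h6 : (u i : ℝ) ^ 2 ≤ M ^ 2 := pow_le_pow_left₀ (Nat.cast_nonneg _) h3 2
    calc ξ c i * ξ c i = (2 * ((c i : ℕ) : ℝ) + 1 - h i) ^ 2 * (u i : ℝ) ^ 2 := by
          simp only [ξ]; ring
      _ ≤ _ := mul_le_mul h5 h6 (by positivity) (by positivity)
  calc _ = ∑ c, ∑ i, ∑ k, ξ c i * ξ c k := by
        refine sum_congr rfl fun c _ => ?_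
        rw [← sum_mul_sum, ← sq]
        push_cast
        rfl
    _ = ∑ i, ∑ k, ∑ c, ξ c i * ξ c k := by
        rw [sum_comm]
        exact sum_congr rfl fun i _ => sum_comm
    _ = ∑ i, ∑ c, ξ c i * ξ c i := sum_congr rfl fun i _ =>
        sum_eq_single i (fun k _ hk => cross i k hk.symm) (by simp)
    _ ≤ ∑ _i : Fin r, ∑ _c : (i : Fin r) → Fin (h i), (p ^ 2 * M ^ 2 : ℝ) :=
        sum_le_sum fun i _ => sum_le_sum fun c _ => diag c i
    _ = _ := by
        simp only [sum_const, card_univ, Fintype.card_fin, nsmul_eq_mul]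
        ring

/-- Collision: a small integer vector that is killed by `L` forms. -/
lemma exists_collision {r L : ℕ} (h : Fin r → ℕ) (p M : ℕ) (hp : ∀ i, h i ≤ p)
    (u : Fin L → Fin r → ℕ) (hu : ∀ j i, u j i ≤ M) (σ : ℝ) (hσ : 1 ≤ σ)
    (hσ2 : (r * p ^ 2 * M ^ 2 : ℝ) ≤ σ ^ 2) (hlt : (15 * σ) ^ L < (∏ i, h i : ℕ)) :
    ∃ d : Fin r → ℤ, d ≠ 0 ∧ (∀ i, |d i| < h i) ∧ ∀ j, ∑ i, d i * u j i = 0 := by
  classical
  let T : ((i : Fin r) → Fin (h i)) → Fin L → ℤ := fun c j =>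
    ∑ i, (2 * (c i : ℤ) + 1 - h i) * u j i
  have hT : ¬ Function.Injective T := by
    intro hT
    have := card_le_of_moment T hT σ hσ fun j =>
      (moment_le h p M hp (u j) (hu j)).trans (mul_le_mul_of_nonneg_left hσ2 (by positivity))
    rw [Fintype.card_pi] at this
    simp only [Fintype.card_fin] at this
    exact absurd hlt (not_lt.mpr this)
  obtain ⟨c, c', hcc, hne⟩ := Function.not_injective_iff.mp hT
  refine ⟨fun i => (c i : ℤ) - c' i, fun h0 => hne (funext fun i => ?_), fun i => ?_, fun j => ?_⟩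
  · have := congrFun h0 i
    simp only [Pi.zero_apply] at this
    exact Fin.ext (by omega)
  · have h1 := (c i).isLt
    have h2 := (c' i).isLt
    rw [abs_lt]
    beta_reduce
    omega
  · have h1 := sub_eq_zero.mpr (congrFun hcc j)
    simp only [T] at h1
    rw [← sum_sub_distrib] at h1
    have h2 : 2 * ∑ i, ((c i : ℤ) - c' i) * u j i = 0 := by
      rw [← h1, mul_sum]
      exact sum_congr rfl fun i _ => by ring
    beta_reduce
    omega

end Pool.Agent.P.MP_926cae_lc
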