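import Mathlib

/-! Instances of the constraint problem for discounted sums, in the encoding of the frozen
statement. -/

namespace Pool.Agent.P.MP_926cae_lc

/-- An edge: tail, head, and the weight as numerator and denominator. -/
abbrev Edge : Type := ℕ × ℕ × ℤ × ℕ

/-- An instance: edges, initial vertex, discount factor, lower bound, upper bound. -/
abbrev Inst : Type := List Edge × ℕ × (ℤ × ℕ) × (ℤ × ℕ) × (ℤ × ℕ)

/-- The rational number given by a numerator and a denominator. -/
def qv (r : ℤ × ℕ) : ℚ := r.1 / r.2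

/-- An infinite path from `v` with all edges in `E`. -/
def IsPlay (E : Set Edge) (v : ℕ) (c : ℕ → Edge) : Prop :=
  (∀ k, c k ∈ E) ∧ (c 0).1 = v ∧ ∀ k, (c k).2.1 = (c (k + 1)).1

/-- The discounted sum of a sequence of edges. -/
noncomputable def disc (l : ℝ) (c : ℕ → Edge) : ℝ := ∑' k, (qv (c k).2.2 : ℝ) * l ^ k

/-- The edge set of an instance. -/
def edges (x : Inst) : Set Edge := {e | e ∈ x.1}

/-- The discount factor of an instance. -/
def lam (x : Inst) : ℚ := qv x.2.2.1

/-- Some play from the initial vertex has its discounted sum between the two bounds. -/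
def Yes (x : Inst) : Prop := ∃ c, IsPlay (edges x) x.2.1 c ∧
  (qv x.2.2.2.1 : ℝ) ≤ disc (lam x) c ∧ disc (lam x) c ≤ qv x.2.2.2.2

/-- One algorithm halts with the right answer on every instance of the class `C`. -/
def DecidableOn (C : Inst → Prop) : Prop := ∃ f : Inst →. Bool, Partrec f ∧
  ∀ x, 0 < lam x → lam x < 1 → C x → ∃ b ∈ f x, (b = true ↔ Yes x)

/-- `e` is the first edge of a closed walk of length `n`. -/
def OnCycle (E : Set Edge) (e : Edge) (n : ℕ) : Prop :=
  0 < n ∧ ∃ c, IsPlay E e.1 c ∧ c 0 = e ∧ (c n).1 = e.1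

/-- The edges that lie on closed walks. -/
def cyc (E : Set Edge) : Set Edge := {e | ∃ n, OnCycle E e n}

/-- `lam ^ n ≥ 1 / 2`, where `n` is the number of vertices with an outgoing edge. -/
def FewVertices (x : Inst) : Prop := 1 ≤ 2 * lam x ^ (x.1.map Prod.fst).toFinset.card

/-- If two different edges `e`, `e'` on closed walks leave the same vertex, there are closed walks
from it of lengths `a` and `b`, the second starting with `e`, with `lam ^ a + lam ^ b ≥ 1`. -/
def ShortCycles (x : Inst) : Prop :=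
  ∀ e ∈ cyc (edges x), ∀ e' ∈ cyc (edges x), e ≠ e' → e'.1 = e.1 → ∃ e₀ a b, e₀.1 = e.1 ∧
    OnCycle (edges x) e₀ a ∧ OnCycle (edges x) e b ∧ 1 ≤ lam x ^ a + lam x ^ b

/-- For every vertex, the sums of the plays that use only edges on closed walks form a finite union
of closed intervals. -/
def IntervalSums (x : Inst) : Prop := ∀ v, ∃ s : Finset (ℝ × ℝ),
  {y | ∃ c, IsPlay (cyc (edges x)) v c ∧ disc (lam x) c = y} = ⋃ I ∈ s, Set.Icc I.1 I.2

/-- Exact value instances with `lam = p / q` in lowest terms, weights in the progression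
`a + d * {0, …, M}`, and `900 p⁴ M² size(q) size(q³ D) ≤ q²`, where `D` is the denominator of the
normalised target and `size` is the number of binary digits. -/
def SmallDiscount (x : Inst) : Prop := qv x.2.2.2.1 = qv x.2.2.2.2 ∧ ∃ (a d : ℚ) (M : ℕ), d ≠ 0 ∧
  (∀ e ∈ x.1, ∃ u : ℕ, u ≤ M ∧ qv e.2.2 = a + d * u) ∧
  900 * (lam x).num.natAbs ^ 4 * M ^ 2 * (lam x).den.size *
    ((lam x).den ^ 3 * ((qv x.2.2.2.1 - a / (1 - lam x)) / d).den).size ≤ (lam x).den ^ 2

end Pool.Agent.P.MP_926cae_lc
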