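import Pool.Agent.P.MP_926cae_lc.Defs

/-! Exact value instances whose discount factor is at most a power of its denominator. -/

namespace Pool.Agent.P.MP_926cae_lc

/-- The range of parameters: `p / q` is the discount factor, `M` bounds the digits and `D` is the
denominator of the target; `size` is the number of binary digits. -/
def Range (p q M D : ℕ) : Prop :=
  (∃ k : ℕ, p ^ (k + 1) ≤ q ^ k ∧ (M + (q * D).size) ^ (200 * (k + 4) ^ 3) ≤ q) ∨
    900 * p ^ 4 * M ^ 2 * q.size * (q ^ 3 * D).size ≤ q ^ 2

/-- Exact value instances with `lam = p / q` in lowest terms and weights in the progression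
`a + d * {0, …, M}` such that `p`, `q`, `M` and the denominator of the normalised target are in the
range. -/
def PowerDiscount (x : Inst) : Prop := qv x.2.2.2.1 = qv x.2.2.2.2 ∧ ∃ (a d : ℚ) (M : ℕ), d ≠ 0 ∧
  (∀ e ∈ x.1, ∃ u : ℕ, u ≤ M ∧ qv e.2.2 = a + d * u) ∧
  Range (lam x).num.natAbs (lam x).den M ((qv x.2.2.2.1 - a / (1 - lam x)) / d).den

end Pool.Agent.P.MP_926cae_lc
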