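import Pool.Agent.P.MP_926cae_lc.Cert

/-! The classes of instances on which the search for certificates halts. -/

namespace Pool.Agent.P.MP_926cae_lc

open Set

lemma yes_of_family (x : Inst) (h0 : 0 < lam x) (h1 : lam x < 1) {F : Set (Iv ℝ)} (hF : F.Finite)
    (hne : ∀ I ∈ F, I.2.1 ≤ I.2.2)
    (hc : ∀ I ∈ F, ∀ y ∈ Icc I.2.1 I.2.2, ∃ e ∈ edges x, ∃ J ∈ F, e.1 = I.1 ∧ e.2.1 = J.1 ∧
      y ∈ Icc (wt e + lam x * J.2.1) (wt e + lam x * J.2.2))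
    {c : ℕ → Edge} (hp : IsPlay (edges x) x.2.1 c) (hm : (qv x.2.2.2.1 : ℝ) ≤ disc (lam x) c)
    (hn : disc (lam x) c ≤ qv x.2.2.2.2) {n : ℕ} {I : Iv ℝ} (hI : I ∈ F) (hv : I.1 = (c n).1)
    (hy : disc (lam x) (sh n c) ∈ Icc I.2.1 I.2.2) : ∃ F, yesB x F = true := by
  have hl0 : (0 : ℝ) < lam x := by exact_mod_cast h0
  have hl1 : (lam x : ℝ) < 1 := by exact_mod_cast h1
  obtain ⟨W, hW⟩ := exists_bound (edges_finite x)
  let pt : ℕ → Iv ℝ := fun k => ((c k).1, disc (lam x) (sh k c), disc (lam x) (sh k c))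
  refine yes_complete x (F := F ∪ pt '' Iic n) (hF.union ((finite_Iic n).image _)) ?_ ?_
    (I := pt 0) (.inr ⟨0, Nat.zero_le n, rfl⟩) hp.2.1 (y := disc (lam x) c) ⟨le_rfl, le_rfl⟩ hm hn
  · rintro J (hJ | ⟨k, -, rfl⟩)
    exacts [hne J hJ, le_rfl]
  · rintro J (hJ | ⟨k, hk, rfl⟩) y hy'
    · obtain ⟨e, he, J', hJ', h⟩ := hc J hJ y hy'
      exact ⟨e, he, J', .inl hJ', h⟩
    · obtain rfl : y = disc (lam x) (sh k c) := le_antisymm hy'.2 hy'.1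
      rcases (mem_Iic.mp hk).eq_or_lt with rfl | hk
      · obtain ⟨e, he, J', hJ', h2, h3⟩ := hc I hI _ hy
        exact ⟨e, he, J', .inl hJ', h2.trans hv, h3⟩
      · have h2 := disc_step (c := sh k c) hl0.le hl1 fun j => hW _ (hp.1 _)
        have h3 : sh 1 (sh k c) = sh (k + 1) c := funext fun j => by
          simp only [sh, add_assoc, add_comm 1]
        rw [h3, show sh k c 0 = c k by simp [sh]] at h2
        exact ⟨c k, hp.1 k, pt (k + 1), .inr ⟨k + 1, hk, rfl⟩, rfl, hp.2.2 k, h2.ge, h2.le⟩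

theorem decidableOn_intervalSums : DecidableOn IntervalSums := by
  refine decidableOn_of_yes _ fun x h0 h1 hS ⟨c, hp, hm, hn⟩ => ?_
  have hl0 : (0 : ℝ) < lam x := by exact_mod_cast h0
  have hl1 : (lam x : ℝ) < 1 := by exact_mod_cast h1
  obtain ⟨W, hW⟩ := exists_bound (edges_finite x)
  choose s hs using hS
  let F : Set (Iv ℝ) := {I | I.1 ∈ Prod.fst '' edges x ∧ I.2 ∈ s I.1 ∧ I.2.1 ≤ I.2.2}
  have hF : F.Finite :=
    (((edges_finite x).image Prod.fst).biUnion fun v _ =>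
      (s v).finite_toSet.image (Prod.mk v)).subset fun I hI =>
        mem_iUnion₂.mpr ⟨I.1, hI.1, I.2, hI.2.1, rfl⟩
  have key : ∀ v d, IsPlay (cyc (edges x)) v d →
      ∃ I ∈ F, I.1 = v ∧ disc (lam x) d ∈ Icc I.2.1 I.2.2 := by
    intro v d hd
    obtain ⟨I, hI, h2⟩ := mem_iUnion₂.mp ((hs v).subset ⟨d, hd, rfl⟩)
    exact ⟨(v, I), ⟨⟨_, cyc_subset (hd.1 0), hd.2.1⟩, hI, h2.1.trans h2.2⟩, rfl, h2⟩
  obtain ⟨n, hn'⟩ := hp.eventually_cyc (edges_finite x)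
  obtain ⟨I, hI, hv, hy⟩ := key _ _ ((hp.sh n).mono hn')
  refine yes_of_family x h0 h1 hF (fun _ h => h.2.2) (fun J hJ y hy => ?_) hp hm hn hI hv hy
  obtain ⟨d, hd, rfl⟩ := (hs J.1).superset (mem_iUnion₂.mpr ⟨J.2, hJ.2.1, hy⟩)
  obtain ⟨J', hJ', h2, h3, h4⟩ := key _ _ (hd.sh 1)
  refine ⟨d 0, cyc_subset (hd.1 0), J', hJ', hd.2.1, (hd.2.2 0).trans h2.symm, ?_⟩
  rw [disc_step hl0.le hl1 fun k => hW _ (cyc_subset (hd.1 k))]
  constructor <;> gcongr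

theorem ShortCycles.intervalSums {x : Inst} (h0 : 0 < lam x) (h1 : lam x < 1)
    (h : ShortCycles x) : IntervalSums x := by
  classical
  have hl0 : (0 : ℝ) < lam x := by exact_mod_cast h0
  have hl1 : (lam x : ℝ) < 1 := by exact_mod_cast h1
  unfold IntervalSums
  generalize hl' : ((lam x : ℚ) : ℝ) = l at hl0 hl1 ⊢
  have hl := hl'.symm
  have hE : (cyc (edges x)).Finite := (edges_finite x).subset cyc_subset
  obtain ⟨W, hW⟩ := exists_bound hE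
  let K : ℕ → Set ℝ := fun v => {y | ∃ c, IsPlay (cyc (edges x)) v c ∧ disc l c = y}
  have hB : ∀ v, ∀ y ∈ K v, |y| ≤ W * (1 - l)⁻¹ := by
    rintro v _ ⟨c, hc, rfl⟩
    exact abs_disc_le hl0.le hl1 fun k => hW _ (hc.1 k)
  have hlo : ∀ v, BddBelow (K v) := fun v => ⟨_, fun y hy => (abs_le.mp (hB v y hy)).1⟩
  have hhi : ∀ v, BddAbove (K v) := fun v => ⟨_, fun y hy => (abs_le.mp (hB v y hy)).2⟩
  let lf : Edge → ℝ := fun e => wt e + l * sInf (K e.2.1)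
  let rt : Edge → ℝ := fun e => wt e + l * sSup (K e.2.1)
  have hpc : ∀ v c, IsPlay (cyc (edges x)) v c → (K (c 0).2.1).Nonempty ∧
      lf (c 0) ≤ disc l c ∧ disc l c ≤ rt (c 0) := by
    intro v c hc
    have h2 : disc l (sh 1 c) ∈ K (c 0).2.1 := ⟨_, hc.2.2 0 ▸ hc.sh 1, rfl⟩
    have h3 := csInf_le (hlo _) h2
    have h4 := le_csSup (hhi _) h2
    rw [disc_step hl0.le hl1 fun k => hW _ (hc.1 k)]
    refine ⟨⟨_, h2⟩, ?_, ?_⟩ <;> simp only [lf, rt] <;> gcongr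
  have hmeet : ∀ v, (K v).Nonempty → ∃ e₀ ∈ cyc (edges x), e₀.1 = v ∧
      ∀ e ∈ cyc (edges x), e.1 = v → lf e₀ ≤ rt e ∧ lf e ≤ rt e₀ := by
    rintro v ⟨_, c, hc, -⟩
    have hex : ∃ a, ∃ e₀ : Edge, e₀.1 = v ∧ OnCycle (edges x) e₀ a := by
      obtain ⟨a, ha⟩ := hc.1 0
      exact ⟨a, _, hc.2.1, ha⟩
    obtain ⟨e₀, hv, ha⟩ := Nat.find_spec hex
    obtain ⟨c₀, hc₀, h2, h3⟩ := ha.periodic
    refine ⟨e₀, ⟨_, ha⟩, hv, fun e he hev => ?_⟩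
    obtain ⟨-, h4, h5⟩ := hpc _ _ hc₀
    rw [h2] at h4 h5
    by_cases hne : e = e₀
    · rw [hne]
      exact ⟨h4.trans h5, h4.trans h5⟩
    obtain ⟨e₁, a, b, h6, h7, h8, h9⟩ := h e he e₀ ⟨_, ha⟩ hne (hv.trans hev.symm)
    have h10 : 1 ≤ l ^ Nat.find hex + l ^ b := by
      have h11 : (1 : ℝ) ≤ l ^ a + l ^ b := by
        rw [hl]
        exact_mod_cast h9
      have := pow_le_pow_of_le_one hl0.le hl1.le (Nat.find_min' hex ⟨e₁, h6.trans hev, h7⟩)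
      linarith
    obtain ⟨d, hd, h11, h12⟩ := h8.periodic
    obtain ⟨-, h13, h14⟩ := hpc _ _ hd
    rw [h11] at h13 h14
    have e1 : (c₀ (Nat.find hex)).1 = e.1 := by
      have := congrFun h3 0
      rw [sh, zero_add] at this
      rw [this, h2, hv, hev]
    have e2 : (d b).1 = e₀.1 := by
      have := congrFun h12 0
      rw [sh, zero_add] at this
      rw [this, h11, hv, hev]
    obtain ⟨-, h15, h16⟩ := hpc _ _ (hc₀.cat (e1 ▸ hd))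
    obtain ⟨-, h17, h18⟩ := hpc _ _ (hd.cat (e2 ▸ hc₀))
    rw [disc_cat hl0.le hl1 hW hc₀ (e1 ▸ hd), h3, cat, if_pos ha.1, h2] at h15 h16
    rw [disc_cat hl0.le hl1 hW hd (e2 ▸ hc₀), h12, cat, if_pos h8.1, h11] at h17 h18
    rcases le_total (disc l c₀) (disc l d) with hle | hle
    · exact ⟨by linarith, by nlinarith⟩
    · exact ⟨by nlinarith, by linarith⟩
  intro v
  change ∃ s : Finset (ℝ × ℝ), K v = _
  rcases (K v).eq_empty_or_nonempty with hv | hv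
  · exact ⟨∅, by simp [hv]⟩
  refine ⟨{(sInf (K v), sSup (K v))}, ?_⟩
  simp only [Finset.mem_singleton, iUnion_iUnion_eq_left]
  refine Subset.antisymm (fun y hy => ⟨csInf_le (hlo v) hy, le_csSup (hhi v) hy⟩) fun y hy => ?_
  refine exists_play_of_closed (B := W * (1 - l)⁻¹) hl0.le hl1 hE
    (P := {s | (K s.1).Nonempty ∧ s.2 ∈ Icc (sInf (K s.1)) (sSup (K s.1))}) (s := (v, y))
    (fun s hs => abs_le.mpr ⟨(le_csInf hs.1 fun y hy => (abs_le.mp (hB _ y hy)).1).trans hs.2.1,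
      hs.2.2.trans (csSup_le hs.1 fun y hy => (abs_le.mp (hB _ y hy)).2)⟩) ?_ ⟨hv, hy⟩
  rintro ⟨u, z⟩ ⟨hu, hz1, hz2⟩
  have hfin : {e ∈ cyc (edges x) | e.1 = u}.Finite := hE.subset fun _ h => h.1
  obtain ⟨e₀, he₀, hu₀, hm⟩ := hmeet u hu
  obtain ⟨e₁, he₁, hmin⟩ := exists_min_image _ lf hfin ⟨e₀, he₀, hu₀⟩
  obtain ⟨e₂, he₂, hmax⟩ := exists_max_image _ rt hfin ⟨e₀, he₀, hu₀⟩
  have h2 : lf e₁ ≤ z := le_trans (le_csInf hu (by
    rintro _ ⟨c, hc, rfl⟩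
    exact (hmin _ ⟨hc.1 0, hc.2.1⟩).trans (hpc _ _ hc).2.1)) hz1
  have h3 : z ≤ rt e₂ := hz2.trans (csSup_le hu (by
    rintro _ ⟨c, hc, rfl⟩
    exact (hpc _ _ hc).2.2.trans (hmax _ ⟨hc.1 0, hc.2.1⟩)))
  obtain ⟨e, he, hu', h4, h5⟩ : ∃ e ∈ cyc (edges x), e.1 = u ∧ lf e ≤ z ∧ z ≤ rt e := by
    rcases le_total z (lf e₀) with h4 | h4
    · exact ⟨e₁, he₁.1, he₁.2, h2, h4.trans (hm _ he₁.1 he₁.2).1⟩
    rcases le_total z (rt e₀) with h5 | h5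
    · exact ⟨e₀, he₀, hu₀, h4, h5⟩
    · exact ⟨e₂, he₂.1, he₂.2, (hm _ he₂.1 he₂.2).2.trans h5, h3⟩
  obtain ⟨n, hn⟩ := he
  obtain ⟨c, hc, rfl, -⟩ := hn.periodic
  simp only [lf, rt] at h4 h5
  refine ⟨c 0, hc.1 0, ((c 0).2.1, (z - wt (c 0)) / l), ⟨(hpc _ _ hc).1, ?_, ?_⟩, hu', rfl, ?_⟩
  · rw [le_div_iff₀ hl0]
    linarith
  · rw [div_le_iff₀ hl0]
    linarith
  · field_simp
    ring

theorem FewVertices.shortCycles {x : Inst} (h0 : 0 < lam x) (h1 : lam x < 1)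
    (h : FewVertices x) : ShortCycles x := by
  rintro e ⟨n, hn⟩ - - - -
  obtain ⟨m, hm, hc⟩ := hn.short
  refine ⟨e, m, m, rfl, hc, hc, ?_⟩
  have := pow_le_pow_of_le_one h0.le h1.le hm
  unfold FewVertices at h
  linarith

theorem DecidableOn.mono {C C' : Inst → Prop} (h : DecidableOn C)
    (hC : ∀ x, 0 < lam x → lam x < 1 → C' x → C x) : DecidableOn C' := by
  obtain ⟨f, hf, h⟩ := h
  exact ⟨f, hf, fun x h0 h1 hx => h x h0 h1 (hC x h0 h1 hx)⟩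

end Pool.Agent.P.MP_926cae_lc
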