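import Pool.Agent.P.MP_926cae_lc.Cert

/-! Exact value instances with a small discount factor. -/

namespace Pool.Agent.P.MP_926cae_lc

open Set

theorem SmallDiscount.periodic {x : Inst} (h0 : 0 < lam x) (h1 : lam x < 1) (h : SmallDiscount x)
    {c : ℕ → Edge} (hp : ∀ k, c k ∈ x.1) (hc : disc (lam x) c = qv x.2.2.2.1) :
    ∃ n m, 0 < m ∧ ∀ k, n ≤ k → qv (c (k + m)).2.2 = qv (c k).2.2 := by
  obtain ⟨-, a, d, M, hd, hw, hq⟩ := h
  have hl0 : (0 : ℝ) < lam x := by exact_mod_cast h0
  have hl1 : (lam x : ℝ) < 1 := by exact_mod_cast h1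
  choose u hu hw using fun k => hw _ (hp k)
  have hnum : 0 < (lam x).num := Rat.num_pos.mpr h0
  have hl : (((lam x).num.natAbs : ℕ) : ℝ) / (lam x).den = lam x := by
    rw [Nat.cast_natAbs, abs_of_pos hnum, Rat.cast_def]
  have hlt : (lam x).num.natAbs < (lam x).den := by
    rw [← hl, div_lt_one (by exact_mod_cast (lam x).den_pos)] at hl1
    exact_mod_cast hl1
  obtain ⟨n, m, hm, hper⟩ := periodic_of_small (u := u) (Int.natAbs_pos.mpr hnum.ne') hlt
    (lam x).reduced hu hq (by
      rw [hl]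
      have h2 := (summable_bdd (C := M) hl0.le hl1 (w := fun k => (u k : ℝ)) fun k => by
        rw [Nat.abs_cast]
        exact_mod_cast hu k).hasSum
      have h3 := ((hasSum_geometric_of_lt_one hl0.le hl1).mul_left (a : ℝ)).add
        (h2.mul_left (d : ℝ))
      have h4 : disc (lam x) c = a * (1 - (lam x : ℝ))⁻¹ + d * ∑' k, (u k : ℝ) * lam x ^ k := by
        rw [← h3.tsum_eq, disc]
        refine tsum_congr fun k => ?_
        rw [hw k]
        push_cast
        ring
      have hd' : (d : ℝ) ≠ 0 := by exact_mod_cast hd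
      push_cast
      rw [eq_div_iff hd', ← hc, h4, div_eq_mul_inv, mul_comm, add_sub_cancel_left])
  exact ⟨n, m, hm, fun k hk => by rw [hw, hw, hper k hk]⟩

theorem decidableOn_smallDiscount : DecidableOn SmallDiscount := by
  refine decidableOn_of_yes _ fun x h0 h1 hS ⟨c, hp, hm, hn⟩ => ?_
  have hl0 : (0 : ℝ) < lam x := by exact_mod_cast h0
  have hl1 : (lam x : ℝ) < 1 := by exact_mod_cast h1
  obtain ⟨W, hW⟩ := exists_bound (edges_finite x)
  obtain ⟨n, m, hm0, hper⟩ := hS.periodic h0 h1 hp.1 (le_antisymm (hS.1 ▸ hn) hm)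
  let y : ℕ → ℝ := fun k => disc (lam x) (sh k c)
  have hy : ∀ k, y k ∈ y '' Iio (n + m) := by
    intro k
    induction k using Nat.strong_induction_on with
    | _ k ih =>
      by_cases hk : k < n + m
      · exact ⟨k, hk, rfl⟩
      have : y k = y (k - m) := tsum_congr fun j => by
        simp only [sh]
        rw [← hper (j + (k - m)) (by omega), show j + (k - m) + m = j + k by omega]
      rw [this]
      exact ih _ (by omega)
  let pt : ℕ → Iv ℝ := fun k => ((c k).1, y k, y k)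
  refine yes_complete x (F := range pt) ?_ ?_ ?_ (I := pt 0) ⟨0, rfl⟩ hp.2.1
    (y := disc (lam x) c) ⟨le_rfl, le_rfl⟩ hm hn
  · refine ((edges_finite x).image2 (fun e z => ((e.1, z, z) : Iv ℝ))
      ((finite_Iio (n + m)).image y)).subset ?_
    rintro _ ⟨k, rfl⟩
    exact ⟨c k, hp.1 k, y k, hy k, rfl⟩
  · rintro _ ⟨k, rfl⟩
    exact le_rfl
  · rintro _ ⟨k, rfl⟩ z hz
    obtain rfl : z = y k := le_antisymm hz.2 hz.1
    have h2 := disc_step (c := sh k c) hl0.le hl1 fun j => hW _ (hp.1 _)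
    have h3 : sh 1 (sh k c) = sh (k + 1) c := funext fun j => by
      simp only [sh, add_assoc, add_comm 1]
    rw [h3, show sh k c 0 = c k by simp [sh]] at h2
    exact ⟨c k, hp.1 k, pt (k + 1), ⟨k + 1, rfl⟩, rfl, hp.2.2 k, h2.ge, h2.le⟩

end Pool.Agent.P.MP_926cae_lc
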